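import Mathlib

/-! Mazur maps glued over dyadic scales: a coarse Lipschitz embedding of `ℓ_2` into the `ℓ_q`-sum of
the spaces `ℓ_{p_n}`, `p_n = 2 / (1 + 1 / (n + 3))`. -/

set_option autoImplicit false
set_option linter.unusedSectionVars false
set_option linter.deprecated false
set_option linter.unusedVariables false

open Filter Topology
open scoped ENNReal

namespace Pool.Agent.H588Z.Wsc

/-- signed power -/
noncomputable def sp (θ t : ℝ) : ℝ := t * |t| ^ θ

lemma sp_up' {θ a b : ℝ} (h0 : 0 < θ) (h1 : θ ≤ 1) (hab : |b| ≤ |a|) :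
    |sp θ a - sp θ b| ≤ 2 * |a - b| * |a| ^ θ := by
  have hA : 0 ≤ |a| ^ θ := by positivity
  have hmono : |b| ^ θ ≤ |a| ^ θ := Real.rpow_le_rpow (abs_nonneg _) hab h0.le
  have key : |b| * (|a| ^ θ - |b| ^ θ) ≤ |a - b| * |a| ^ θ := by
    rcases (abs_nonneg b).eq_or_lt with hb | hb
    · rw [← hb, zero_mul]; positivity
    have ha : 0 < |a| := hb.trans_le hab
    have h2 : |b| / |a| ≤ (|b| / |a|) ^ θ := by
      conv_lhs => rw [← Real.rpow_one (|b| / |a|)]
      exact Real.rpow_le_rpow_of_exponent_ge (by positivity) ((div_le_one ha).2 hab) h1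
    rw [Real.div_rpow hb.le ha.le, div_le_div_iff₀ ha (by positivity)] at h2
    have h3 : |a| - |b| ≤ |a - b| := abs_sub_abs_le_abs_sub a b
    have h4 : |b| * (|a| ^ θ - |b| ^ θ) ≤ |a| * (|a| ^ θ - |b| ^ θ) :=
      mul_le_mul_of_nonneg_right hab (by linarith)
    nlinarith
  have : sp θ a - sp θ b = (a - b) * |a| ^ θ + b * (|a| ^ θ - |b| ^ θ) := by unfold sp; ring
  rw [this]
  refine (abs_add_le _ _).trans ?_
  rw [abs_mul, abs_mul, abs_of_nonneg hA, abs_of_nonneg (sub_nonneg.2 hmono)]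
  linarith

lemma sp_up {θ : ℝ} (h0 : 0 < θ) (h1 : θ ≤ 1) (a b : ℝ) :
    |sp θ a - sp θ b| ≤ 2 * |a - b| * (max |a| |b|) ^ θ := by
  rcases le_total |b| |a| with h | h
  · rw [max_eq_left h]; exact sp_up' h0 h1 h
  · rw [max_eq_right h, abs_sub_comm, abs_sub_comm a]; exact sp_up' h0 h1 h

lemma sp_neg (θ t : ℝ) : sp θ (-t) = -sp θ t := by simp [sp]

lemma sp_lo'' {θ a b : ℝ} (h0 : 0 < θ) (hab : |b| ≤ a) :
    |a - b| * a ^ θ ≤ 2 * |sp θ a - sp θ b| := by
  have ha : 0 ≤ a := (abs_nonneg _).trans hab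
  have hA : 0 ≤ a ^ θ := by positivity
  have hB : 0 ≤ |b| ^ θ := by positivity
  have hmono : |b| ^ θ ≤ a ^ θ := Real.rpow_le_rpow (abs_nonneg _) hab h0.le
  have hb := abs_le.1 hab
  rw [abs_of_nonneg (by linarith : 0 ≤ a - b)]
  refine le_trans ?_ (mul_le_mul_of_nonneg_left (le_abs_self _) (by norm_num))
  unfold sp
  rw [abs_of_nonneg ha]
  rcases le_total 0 b with h | h
  · have : b * |b| ^ θ ≤ b * a ^ θ := mul_le_mul_of_nonneg_left hmono h
    have : 0 ≤ (a - b) * a ^ θ := mul_nonneg (by linarith) hA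
    nlinarith
  · have : b * |b| ^ θ ≤ 0 := mul_nonpos_of_nonpos_of_nonneg h hB
    have : 0 ≤ (a + b) * a ^ θ := mul_nonneg (by linarith) hA
    nlinarith

lemma sp_lo' {θ a b : ℝ} (h0 : 0 < θ) (h1 : θ ≤ 1) (hab : |b| ≤ |a|) :
    |a - b| ^ (1 + θ) ≤ 4 * |sp θ a - sp θ b| := by
  have k1 : |a - b| * |a| ^ θ ≤ 2 * |sp θ a - sp θ b| := by
    rcases le_total 0 a with h | h
    · rw [abs_of_nonneg h] at hab ⊢; exact sp_lo'' h0 hab
    · rw [abs_of_nonpos h] at hab ⊢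
      have := sp_lo'' (a := -a) (b := -b) h0 (by rwa [abs_neg])
      rwa [sp_neg, sp_neg, neg_sub_neg, neg_sub_neg, abs_sub_comm, abs_sub_comm (sp θ b)] at this
  have k2 : |a - b| ^ θ ≤ 2 * |a| ^ θ := by
    have h2 : |a - b| ≤ 2 * |a| := by have := abs_sub a b; linarith
    have h3 : (2 : ℝ) ^ θ ≤ 2 := by
      conv_rhs => rw [← Real.rpow_one 2]
      exact Real.rpow_le_rpow_of_exponent_le (by norm_num) h1
    calc |a - b| ^ θ ≤ (2 * |a|) ^ θ := Real.rpow_le_rpow (abs_nonneg _) h2 h0.le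
      _ = 2 ^ θ * |a| ^ θ := Real.mul_rpow (by norm_num) (abs_nonneg _)
      _ ≤ _ := mul_le_mul_of_nonneg_right h3 (by positivity)
  rw [Real.rpow_add' (abs_nonneg _) (by linarith), Real.rpow_one]
  have := mul_le_mul_of_nonneg_left k2 (abs_nonneg (a - b))
  linarith

lemma sp_lo {θ : ℝ} (h0 : 0 < θ) (h1 : θ ≤ 1) (a b : ℝ) :
    |a - b| ^ (1 + θ) ≤ 4 * |sp θ a - sp θ b| := by
  rcases le_total |b| |a| with h | h
  · exact sp_lo' h0 h1 h
  · rw [abs_sub_comm, abs_sub_comm (sp θ a)]; exact sp_lo' h0 h1 h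

lemma sp_abs {θ : ℝ} (h0 : 0 < θ) (t : ℝ) : |sp θ t| = |t| ^ (1 + θ) := by
  unfold sp
  rw [abs_mul, abs_of_nonneg (by positivity : 0 ≤ |t| ^ θ),
    Real.rpow_add' (abs_nonneg _) (by linarith), Real.rpow_one]

/-- the exponents -/
noncomputable def th (n : ℕ) : ℝ := 1 / ((n : ℝ) + 3)

noncomputable def PP (n : ℕ) : ℝ≥0∞ := ENNReal.ofReal (2 / (1 + th n))

lemma th_pos (n : ℕ) : 0 < th n := by unfold th; positivity

lemma th_lt (n : ℕ) : th n < 1 := by
  unfold th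
  rw [div_lt_one (by positivity)]
  linarith [(Nat.cast_nonneg n : (0 : ℝ) ≤ n)]

lemma PP_toReal (n : ℕ) : (PP n).toReal = 2 / (1 + th n) :=
  ENNReal.toReal_ofReal (by have := th_pos n; positivity)

lemma PP_gt (n : ℕ) : 1 < (PP n).toReal := by
  have := th_pos n
  rw [PP_toReal, lt_div_iff₀ (by positivity)]
  linarith [th_lt n]

lemma PP_lt (n : ℕ) : (PP n).toReal < 2 := by
  have := th_pos n
  rw [PP_toReal, div_lt_iff₀ (by positivity)]
  linarith

lemma PP_ne_top (n : ℕ) : PP n ≠ ⊤ := ENNReal.ofReal_ne_top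

instance (n : ℕ) : Fact (1 ≤ PP n) := ⟨by
  rw [← ENNReal.toReal_le_toReal (by simp) (PP_ne_top n)]
  simpa using (PP_gt n).le⟩

abbrev H : Type := lp (fun _ : ℕ => ℝ) 2

abbrev EE (n : ℕ) : Type := lp (fun _ : ℕ => ℝ) (PP n)

lemma H_hasSum (x : H) : HasSum (fun i => |x i| ^ (2 : ℝ)) (‖x‖ ^ (2 : ℝ)) := by
  have := lp.hasSum_norm (p := 2) (by norm_num) x
  simpa using this

lemma th_mul (n : ℕ) : (1 + th n) * (PP n).toReal = 2 := by
  have := th_pos n
  rw [PP_toReal]; field_simp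

lemma sp_pow (n : ℕ) (t : ℝ) : ‖sp (th n) t‖ ^ (PP n).toReal = |t| ^ (2 : ℝ) := by
  rw [Real.norm_eq_abs, sp_abs (th_pos n), ← Real.rpow_mul (abs_nonneg _), th_mul]

/-- the Mazur map -/
noncomputable def maz (n : ℕ) (x : H) : EE n :=
  ⟨fun i => sp (th n) (x i), memℓp_gen (by
    simp only [sp_pow]; exact (H_hasSum x).summable)⟩

lemma maz_apply (n : ℕ) (x : H) (i : ℕ) : maz n x i = sp (th n) (x i) := rfl

lemma root_eq (n : ℕ) {t : ℝ} (ht : 0 ≤ t) : (t ^ (1 + th n)) ^ (PP n).toReal = t ^ (2 : ℝ) := by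
  rw [← Real.rpow_mul ht, th_mul]

lemma maz_norm (n : ℕ) (x : H) : ‖maz n x‖ = ‖x‖ * ‖x‖ ^ th n := by
  have hp0 : 0 < (PP n).toReal := by linarith [PP_gt n]
  have h1 := lp.hasSum_norm hp0 (maz n x)
  simp only [maz_apply, sp_pow] at h1
  have h2 := h1.unique (H_hasSum x)
  rw [← root_eq n (norm_nonneg _)] at h2
  have h3 := (Real.rpow_left_inj (norm_nonneg _) (by positivity) hp0.ne').1 h2
  rw [h3, Real.rpow_add' (norm_nonneg _) (by linarith [th_pos n]), Real.rpow_one]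

lemma maz_lo (n : ℕ) (x y : H) : ‖x - y‖ - 1 ≤ 4 * ‖maz n x - maz n y‖ := by
  have hp0 : 0 < (PP n).toReal := by linarith [PP_gt n]
  have h1 := (lp.hasSum_norm hp0 (maz n x - maz n y)).mul_left (4 ^ (PP n).toReal)
  have h2 := hasSum_le (fun i => by
    rw [lp.coeFn_sub, lp.coeFn_sub, Pi.sub_apply, Pi.sub_apply, maz_apply, maz_apply,
      ← Real.mul_rpow (by norm_num) (norm_nonneg _), ← root_eq n (abs_nonneg _)]
    exact Real.rpow_le_rpow (by positivity) (sp_lo (th_pos n) (th_lt n).le _ _) hp0.le)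
    (H_hasSum (x - y)) h1
  rw [← Real.mul_rpow (by norm_num) (norm_nonneg _), ← root_eq n (norm_nonneg _),
    Real.rpow_le_rpow_iff (by positivity) (by positivity) hp0] at h2
  refine le_trans ?_ h2
  rcases le_total 1 ‖x - y‖ with h | h
  · have : ‖x - y‖ ^ (1 : ℝ) ≤ ‖x - y‖ ^ (1 + th n) :=
      Real.rpow_le_rpow_of_exponent_le h (by linarith [th_pos n])
    rw [Real.rpow_one] at this; linarith
  · have : 0 ≤ ‖x - y‖ ^ (1 + th n) := by positivity
    linarith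

lemma maz_up (n : ℕ) (x y : H) {M : ℝ} (hM : 0 ≤ M) (hxy : ‖x‖ ^ 2 + ‖y‖ ^ 2 ≤ M ^ 2) :
    ‖maz n x - maz n y‖ ≤ 2 * ‖x - y‖ * M ^ th n := by
  have hp0 : 0 < (PP n).toReal := by linarith [PP_gt n]
  have hθ := th_pos n
  set θ := th n with hθdef
  set p := (PP n).toReal with hpdef
  have hp : (1 + θ) * p = 2 := th_mul n
  have hconj : (1 + θ).HolderConjugate ((1 + θ) / θ) := by
    rw [Real.holderConjugate_iff]
    refine ⟨by linarith, ?_⟩
    field_simp
  refine lp.norm_le_of_forall_sum_le hp0 (by positivity) fun s => ?_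
  have h1 : ∀ i, ‖(maz n x - maz n y) i‖ ^ p ≤
      2 ^ p * (|(x - y) i| ^ p * (max |x i| |y i|) ^ (θ * p)) := by
    intro i
    have h0 : 0 ≤ max |x i| |y i| := le_max_of_le_left (abs_nonneg _)
    rw [lp.coeFn_sub, lp.coeFn_sub, Pi.sub_apply, Pi.sub_apply, maz_apply, maz_apply,
      Real.rpow_mul h0, ← Real.mul_rpow (abs_nonneg _) (by positivity),
      ← Real.mul_rpow (by norm_num) (by positivity), ← mul_assoc]
    exact Real.rpow_le_rpow (norm_nonneg _) (sp_up hθ (th_lt n).le _ _) hp0.le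
  have h2 := Real.inner_le_Lp_mul_Lq_of_nonneg s (f := fun i => |(x - y) i| ^ p)
    (g := fun i => (max |x i| |y i|) ^ (θ * p)) hconj (fun i _ => by positivity)
    (fun i _ => Real.rpow_nonneg (le_max_of_le_left (abs_nonneg _)) _)
  have h3 : ∑ i ∈ s, (|(x - y) i| ^ p) ^ (1 + θ) ≤ ‖x - y‖ ^ (2 : ℝ) := by
    refine le_trans (le_of_eq ?_) (sum_le_hasSum s (fun i _ => by positivity) (H_hasSum (x - y)))
    refine Finset.sum_congr rfl fun i _ => ?_
    rw [← Real.rpow_mul (abs_nonneg _), mul_comm, hp]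
  have h4 : ∑ i ∈ s, ((max |x i| |y i|) ^ (θ * p)) ^ ((1 + θ) / θ) ≤ M ^ (2 : ℝ) := by
    have h5 := sum_le_hasSum s (fun i _ => by positivity) ((H_hasSum x).add (H_hasSum y))
    have h6 : ‖x‖ ^ (2 : ℝ) + ‖y‖ ^ (2 : ℝ) ≤ M ^ (2 : ℝ) := by
      simpa using hxy
    refine le_trans (Finset.sum_le_sum fun i _ => ?_) (h5.trans h6)
    have h0 : 0 ≤ max |x i| |y i| := le_max_of_le_left (abs_nonneg _)
    rw [← Real.rpow_mul h0, show θ * p * ((1 + θ) / θ) = 2 by rw [← hp]; field_simp]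
    have hx : 0 ≤ |x i| ^ (2 : ℝ) := by positivity
    have hy : 0 ≤ |y i| ^ (2 : ℝ) := by positivity
    rcases le_total |x i| |y i| with h | h
    · rw [max_eq_right h]; linarith
    · rw [max_eq_left h]; linarith
  have h7 : (∑ i ∈ s, (|(x - y) i| ^ p) ^ (1 + θ)) ^ (1 / (1 + θ)) ≤ ‖x - y‖ ^ p := by
    refine (Real.rpow_le_rpow (Finset.sum_nonneg fun i _ => by positivity) h3
      (by positivity)).trans (le_of_eq ?_)
    rw [← Real.rpow_mul (norm_nonneg _)]
    congr 1; rw [← hp]; field_simp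
  have h8 : (∑ i ∈ s, ((max |x i| |y i|) ^ (θ * p)) ^ ((1 + θ) / θ)) ^ (1 / ((1 + θ) / θ)) ≤
      (M ^ θ) ^ p := by
    refine (Real.rpow_le_rpow (Finset.sum_nonneg fun i _ => Real.rpow_nonneg
      (Real.rpow_nonneg (le_max_of_le_left (abs_nonneg _)) _) _) h4
      (by positivity)).trans (le_of_eq ?_)
    rw [← Real.rpow_mul hM, ← Real.rpow_mul hM]
    congr 1; rw [← hp]; field_simp
  calc ∑ i ∈ s, ‖(maz n x - maz n y) i‖ ^ p
      ≤ ∑ i ∈ s, 2 ^ p * (|(x - y) i| ^ p * (max |x i| |y i|) ^ (θ * p)) :=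
        Finset.sum_le_sum fun i _ => h1 i
    _ = 2 ^ p * ∑ i ∈ s, (|(x - y) i| ^ p * (max |x i| |y i|) ^ (θ * p)) := by
        rw [Finset.mul_sum]
    _ ≤ 2 ^ p * (‖x - y‖ ^ p * (M ^ θ) ^ p) := by
        refine mul_le_mul_of_nonneg_left (h2.trans ?_) (by positivity)
        exact mul_le_mul h7 h8 (Real.rpow_nonneg (Finset.sum_nonneg fun i _ => Real.rpow_nonneg
          (Real.rpow_nonneg (le_max_of_le_left (abs_nonneg _)) _) _) _) (by positivity)
    _ = (2 * ‖x - y‖ * M ^ θ) ^ p := by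
        rw [Real.mul_rpow (by positivity) (by positivity), Real.mul_rpow (by norm_num)
          (norm_nonneg _), mul_assoc]

lemma scale_pow (n : ℕ) : ((8 : ℝ) * 2 ^ n) ^ th n = 2 := by
  have : (8 : ℝ) * 2 ^ n = 2 ^ ((n : ℝ) + 3) := by
    rw [Real.rpow_add (by norm_num), Real.rpow_natCast]; norm_num [mul_comm]
  rw [this, ← Real.rpow_mul (by norm_num), th, mul_one_div_cancel (by positivity), Real.rpow_one]

/-- the cut-off at scale `T` -/
noncomputable def lam (T t : ℝ) : ℝ := max 0 (min 1 (min (2 - t / (2 * T)) (8 * t / T - 1)))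

lemma lam_nonneg (T t : ℝ) : 0 ≤ lam T t := le_max_left _ _

lemma lam_le (T t : ℝ) : lam T t ≤ 1 := max_le zero_le_one (min_le_left _ _)

lemma lam_one {T t : ℝ} (hT : 0 < T) (h1 : T / 4 ≤ t) (h2 : t ≤ 2 * T) : lam T t = 1 := by
  unfold lam
  have a1 : t / (2 * T) ≤ 1 := (div_le_one (by positivity)).2 h2
  have a2 : 2 ≤ 8 * t / T := by rw [le_div_iff₀ hT]; linarith
  rw [min_eq_left (le_min (by linarith) (by linarith)), max_eq_right zero_le_one]

lemma lam_supp {T t : ℝ} (hT : 0 < T) (h : lam T t ≠ 0) : T / 8 < t ∧ t < 4 * T := by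
  have h1 : 0 < min 1 (min (2 - t / (2 * T)) (8 * t / T - 1)) := by
    by_contra h2
    exact h (max_eq_left (not_lt.1 h2))
  simp only [lt_min_iff, sub_pos] at h1
  obtain ⟨-, h2, h3⟩ := h1
  rw [div_lt_iff₀ (by positivity)] at h2
  rw [lt_div_iff₀ hT] at h3
  constructor <;> linarith

lemma lam_lip {T : ℝ} (hT : 0 < T) (s t : ℝ) : |lam T s - lam T t| ≤ 8 * |s - t| / T := by
  unfold lam
  rw [max_comm 0, max_comm 0]
  refine (abs_max_sub_max_le_abs _ _ _).trans ((abs_min_sub_min_le_max _ _ _ _).trans ?_)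
  refine max_le (by simp; positivity) ((abs_min_sub_min_le_max _ _ _ _).trans (max_le ?_ ?_))
  · rw [show 2 - s / (2 * T) - (2 - t / (2 * T)) = (t - s) / (2 * T) by ring, abs_div,
      abs_sub_comm, abs_of_pos (by positivity : 0 < 2 * T),
      div_le_div_iff₀ (by positivity) hT]
    nlinarith [abs_nonneg (s - t)]
  · rw [show 8 * s / T - 1 - (8 * t / T - 1) = 8 * (s - t) / T by ring, abs_div, abs_mul,
      abs_of_pos hT]
    norm_num

/-- the piece at scale `2 ^ n` -/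
noncomputable def G (n : ℕ) (x : H) : EE n := lam (2 ^ n) ‖x‖ • maz n x

lemma G_lip' (n : ℕ) {x y : H} (h : ‖y‖ ≤ ‖x‖) : ‖G n x - G n y‖ ≤ 68 * ‖x - y‖ := by
  have hT : (0 : ℝ) < 2 ^ n := by positivity
  set T : ℝ := 2 ^ n with hTdef
  have e : G n x - G n y = lam T ‖x‖ • (maz n x - maz n y) +
      (lam T ‖x‖ - lam T ‖y‖) • maz n y := by
    unfold G; rw [smul_sub, sub_smul]; abel
  have t1 : ‖lam T ‖x‖ • (maz n x - maz n y)‖ ≤ 4 * ‖x - y‖ := by
    by_cases h0 : lam T ‖x‖ = 0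
    · rw [h0, zero_smul, norm_zero]; positivity
    have h1 := (lam_supp hT h0).2
    have h2 := maz_up n x y (M := 8 * T) (by positivity) (by
      nlinarith [norm_nonneg x, norm_nonneg y])
    rw [scale_pow] at h2
    rw [norm_smul, Real.norm_of_nonneg (lam_nonneg _ _)]
    have := mul_le_of_le_one_left (norm_nonneg (maz n x - maz n y)) (lam_le T ‖x‖)
    linarith
  have t2 : ‖(lam T ‖x‖ - lam T ‖y‖) • maz n y‖ ≤ 64 * ‖x - y‖ := by
    by_cases h0 : 4 * T ≤ ‖y‖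
    · have a1 : lam T ‖x‖ = 0 := by
        by_contra h1; linarith [(lam_supp hT h1).2]
      have a2 : lam T ‖y‖ = 0 := by
        by_contra h1; linarith [(lam_supp hT h1).2]
      rw [a1, a2, sub_self, zero_smul, norm_zero]; positivity
    have h1 : ‖y‖ ^ th n ≤ 2 := by
      rw [← scale_pow n]
      exact Real.rpow_le_rpow (norm_nonneg _) (by linarith) (th_pos n).le
    have h2 : ‖maz n y‖ ≤ 8 * T := by
      rw [maz_norm]
      have := mul_le_mul (not_le.1 h0).le h1 (by positivity) (by positivity)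
      linarith
    have h3 : |lam T ‖x‖ - lam T ‖y‖| ≤ 8 * ‖x - y‖ / T := by
      refine (lam_lip hT _ _).trans ?_
      gcongr
      exact abs_norm_sub_norm_le x y
    rw [norm_smul, Real.norm_eq_abs]
    calc _ ≤ 8 * ‖x - y‖ / T * (8 * T) := mul_le_mul h3 h2 (norm_nonneg _) (by positivity)
      _ = _ := by field_simp; ring
  rw [e]
  refine (norm_add_le _ _).trans ?_
  linarith

lemma G_lip (n : ℕ) (x y : H) : ‖G n x - G n y‖ ≤ 68 * ‖x - y‖ := by
  rcases le_total ‖y‖ ‖x‖ with h | h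
  · exact G_lip' n h
  · rw [norm_sub_rev, norm_sub_rev x]; exact G_lip' n h

lemma G_supp (x : H) : ∃ s : Finset ℕ, s.card ≤ 5 ∧ ∀ n ∉ s, G n x = 0 := by
  classical
  by_cases h : ∃ n : ℕ, lam (2 ^ n) ‖x‖ ≠ 0
  · refine ⟨Finset.Ico (Nat.find h) (Nat.find h + 5), by simp, fun n hn => ?_⟩
    by_contra h1
    have h2 : lam (2 ^ n) ‖x‖ ≠ 0 := fun h0 => h1 (by rw [G, h0, zero_smul])
    apply hn
    rw [Finset.mem_Ico]
    refine ⟨Nat.find_min' h h2, ?_⟩
    have a1 := (lam_supp (by positivity) h2).1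
    have a2 := (lam_supp (by positivity) (Nat.find_spec h)).2
    have a3 : (2 : ℝ) ^ n < 2 ^ (Nat.find h + 5) := by rw [pow_add]; norm_num; linarith
    exact (pow_lt_pow_iff_right₀ (by norm_num)).1 a3
  · push Not at h
    exact ⟨∅, by simp, fun n _ => by rw [G, h n, zero_smul]⟩

variable (q : ℝ≥0∞) [Fact (1 ≤ q)]

/-- the glued map -/
noncomputable def glue (x : H) : lp EE q :=
  ⟨fun n => G n x, by
    obtain ⟨s, -, hs⟩ := G_supp x
    refine (memℓp_zero (s.finite_toSet.subset fun n hn => ?_)).of_exponent_ge zero_le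
    by_contra h
    exact hn (hs n h)⟩

lemma glue_apply (x : H) (n : ℕ) : glue q x n = G n x := rfl

lemma glue_up (hq : q ≠ ⊤) (x y : H) : ‖glue q x - glue q y‖ ≤ 680 * ‖x - y‖ := by
  classical
  obtain ⟨s, hs1, hs2⟩ := G_supp x
  obtain ⟨t, ht1, ht2⟩ := G_supp y
  set v := glue q x - glue q y with hv
  have hvn : ∀ n, v n = G n x - G n y := fun n => rfl
  have h1 : v = ∑ n ∈ s ∪ t, lp.single q n (v n) := by
    refine (lp.hasSum_single hq v).unique (hasSum_sum_of_ne_finset_zero fun n hn => ?_)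
    rw [Finset.mem_union, not_or] at hn
    rw [hvn, hs2 n hn.1, ht2 n hn.2, sub_self, lp.single_zero]
  rw [h1]
  refine (norm_sum_le _ _).trans ?_
  calc ∑ n ∈ s ∪ t, ‖lp.single (E := EE) q n (v n)‖ ≤ ∑ n ∈ s ∪ t, 68 * ‖x - y‖ := by
        refine Finset.sum_le_sum fun n _ => ?_
        rw [lp.norm_single (zero_lt_one.trans_le Fact.out), hvn]
        exact G_lip n x y
    _ ≤ _ := by
        rw [Finset.sum_const, nsmul_eq_mul]
        have : ((s ∪ t).card : ℝ) ≤ 10 := by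
          exact_mod_cast (Finset.card_union_le s t).trans (by omega)
        nlinarith [norm_nonneg (x - y)]

lemma glue_lo' {x y : H} (h : ‖y‖ ≤ ‖x‖) : 1 / 4 * ‖x - y‖ - 1 / 2 ≤ ‖glue q x - glue q y‖ := by
  have hd := norm_sub_le x y
  rcases lt_or_ge ‖x‖ 1 with h1 | h1
  · have := norm_nonneg (glue q x - glue q y); linarith
  obtain ⟨n, hn1, hn2⟩ := exists_nat_pow_near h1 (by norm_num : (1 : ℝ) < 2)
  have hT : (0 : ℝ) < 2 ^ n := by positivity
  rw [pow_succ] at hn2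
  have hx : G n x = maz n x := by
    rw [G, lam_one hT (by linarith) (by linarith), one_smul]
  refine le_trans ?_ (lp.norm_apply_le_norm (zero_lt_one.trans_le Fact.out).ne' _ n)
  rw [show (glue q x - glue q y) n = G n x - G n y from rfl, hx]
  rcases le_or_gt (2 ^ n / 4) ‖y‖ with h2 | h2
  · rw [G, lam_one hT h2 (by linarith), one_smul]
    linarith [maz_lo n x y]
  · have a1 : ‖G n y‖ ≤ ‖y‖ * ‖x‖ ^ th n := by
      rw [G, norm_smul, Real.norm_of_nonneg (lam_nonneg _ _)]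
      refine (mul_le_of_le_one_left (norm_nonneg _) (lam_le _ _)).trans ?_
      rw [maz_norm]
      exact mul_le_mul_of_nonneg_left (Real.rpow_le_rpow (norm_nonneg _) h (th_pos n).le)
        (norm_nonneg _)
    have a2 : 1 ≤ ‖x‖ ^ th n := Real.one_le_rpow h1 (th_pos n).le
    have a3 := norm_sub_norm_le (maz n x) (G n y)
    rw [maz_norm] at a3
    have a4 : (‖x‖ - ‖y‖) * 1 ≤ (‖x‖ - ‖y‖) * ‖x‖ ^ th n :=
      mul_le_mul_of_nonneg_left a2 (by linarith)
    nlinarith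

lemma glue_lo (x y : H) : 1 / 4 * ‖x - y‖ - 1 / 2 ≤ ‖glue q x - glue q y‖ := by
  rcases le_total ‖y‖ ‖x‖ with h | h
  · exact glue_lo' q h
  · rw [norm_sub_rev, norm_sub_rev (glue q x)]; exact glue_lo' q h

end Pool.Agent.H588Z.Wsc
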