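import Pool.Agent.H588Z.Wsc.AusX
import Pool.Agent.H588Z.Wsc.Emb

/-! Aharoni type coordinates with uniformly bounded supports on balls: a coarse Lipschitz embedding of
`X` into an iterated `ℓ_2`-sum of spaces `ℓ_q`, `q ≥ 2`. -/

set_option autoImplicit false
set_option linter.unusedSectionVars false
set_option linter.deprecated false
set_option linter.unusedVariables false

open Filter Topology
open scoped ENNReal

namespace Pool.Agent.H588Z.Wsc

section one
variable {k : ℕ}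

/-- the partial sums -/
def v (p : XX k) (l : J) : ℝ := p.1.2 l

lemma v_eq (p : XX k) (l : J) : v p l = uk k l p.1.1 := by rw [v, XX_snd, U_apply]

lemma v_le (p : XX k) (l : J) : |v p l| ≤ ‖p‖ :=
  (lp.norm_apply_le_norm (by norm_num) p.1.2 l).trans (le_max_right _ _)

lemma v_sub (p p' : XX k) (l : J) : |v p l - v p' l| ≤ ‖p - p'‖ := v_le (p - p') l

lemma v_nil (p : XX k) : v p [] = 0 := by rw [v_eq, uk, if_pos (by simp), ul_nil]

open Classical in
noncomputable def oscT (p : XX k) (t s : J) : ℝ :=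
  if t <:+ s ∧ s.length ≤ k then |v p s - v p t.tail| else 0

/-- the oscillation below the node `t` -/
noncomputable def osc (p : XX k) (t : J) : ℝ := ⨆ s, oscT p t s

lemma oscT_le (p : XX k) (t s : J) : oscT p t s ≤ 2 * ‖p‖ := by
  unfold oscT
  split_ifs
  · have := abs_sub (v p s) (v p t.tail)
    linarith [v_le p s, v_le p t.tail]
  · positivity

lemma oscT_bdd (p : XX k) (t : J) : BddAbove (Set.range (oscT p t)) :=
  ⟨2 * ‖p‖, by rintro _ ⟨s, rfl⟩; exact oscT_le p t s⟩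

lemma le_osc (p : XX k) {t s : J} (h1 : t <:+ s) (h2 : s.length ≤ k) :
    |v p s - v p t.tail| ≤ osc p t := by
  have := le_ciSup (oscT_bdd p t) s
  rwa [oscT, if_pos ⟨h1, h2⟩] at this

lemma osc_le (p : XX k) (t : J) : osc p t ≤ 2 * ‖p‖ := ciSup_le fun s => oscT_le p t s

lemma osc_lip' (p p' : XX k) (t : J) : osc p t ≤ osc p' t + 2 * ‖p - p'‖ := by
  refine ciSup_le fun s => ?_
  have h := le_ciSup (oscT_bdd p' t) s
  refine le_trans ?_ (add_le_add h le_rfl)
  unfold oscT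
  split_ifs
  · have h1 := v_sub p p' s
    have h2 := v_sub p p' t.tail
    have h3 := abs_sub_abs_le_abs_sub (v p s - v p t.tail) (v p' s - v p' t.tail)
    have h4 := abs_sub (v p s - v p' s) (v p t.tail - v p' t.tail)
    rw [show v p s - v p t.tail - (v p' s - v p' t.tail) =
      v p s - v p' s - (v p t.tail - v p' t.tail) by ring] at h3
    linarith
  · positivity

lemma osc_lip (p p' : XX k) (t : J) : |osc p t - osc p' t| ≤ 2 * ‖p - p'‖ := by
  have h1 := osc_lip' p p' t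
  have h2 := osc_lip' p' p t
  rw [norm_sub_rev] at h2
  rw [abs_le]; constructor <;> linarith

lemma path_le (x : H2) (t : J) {β : ℝ} (hβ : 0 ≤ β) : ∀ s : J, t <:+ s →
    (∀ r, t <:+ r → r <:+ s → |x r| ≤ β) → |ul s x - ul t.tail x| ≤ β * s.length := by
  intro s
  induction s with
  | nil =>
    intro h _
    rw [List.suffix_nil.1 h]; simp
  | cons n s ih =>
    intro h hr
    have h0 := hr (n :: s) h List.suffix_rfl
    have hs : (0 : ℝ) ≤ β * s.length := by positivity
    rw [ul_cons, List.length_cons]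
    push_cast
    rcases List.suffix_cons_iff.1 h with h1 | h1
    · rw [h1, List.tail_cons, add_sub_cancel_right]
      linarith
    · have h2 := ih h1 fun r a b => hr r a (b.trans (List.suffix_cons n s))
      have := abs_add_le (x (n :: s)) (ul s x - ul t.tail x)
      rw [add_sub_assoc]
      linarith

lemma osc_big (p : XX k) (t : J) {δ : ℝ} (hδ : 0 < δ) (h : δ < osc p t) :
    ∃ r : J, t <:+ r ∧ r.length ≤ k ∧ δ / (k + 1) < |p.1.1 r| := by
  by_contra hcon
  refine absurd h (not_lt.2 (ciSup_le fun s => ?_))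
  unfold oscT
  split_ifs with hs
  · have hβ : 0 ≤ δ / (k + 1) := by positivity
    have h1 := path_le p.1.1 t hβ s hs.1 fun r a b => by
      by_contra h2
      exact hcon ⟨r, a, b.length_le.trans hs.2, not_le.1 h2⟩
    have h3 : t.tail.length ≤ k := by
      have := hs.1.length_le
      rw [List.length_tail]; omega
    rw [v_eq, v_eq, uk, uk, if_pos hs.2, if_pos h3]
    refine h1.trans ?_
    have h4 : (s.length : ℝ) ≤ k + 1 := by exact_mod_cast hs.2.trans (Nat.le_succ k)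
    calc δ / (k + 1) * s.length ≤ δ / (k + 1) * (k + 1) := by gcongr
      _ = δ := by field_simp
  · exact hδ.le

lemma big_fin {β : ℝ} (hβ : 0 < β) (ρ : ℝ) : ∃ M : ℕ, ∀ x : H2, ‖x‖ ≤ ρ →
    ∃ B : Finset J, B.card ≤ M ∧ ∀ r, β < |x r| → r ∈ B := by
  refine ⟨⌈(ρ / β) ^ 2⌉₊, fun x hx => ?_⟩
  have key : ∀ s : Finset J, (∀ r ∈ s, β < |x r|) → s.card ≤ ⌈(ρ / β) ^ 2⌉₊ := by
    intro s hs
    have h1 := lp.sum_rpow_le_norm_rpow (p := 2) (by norm_num) x s
    simp only [ENNReal.toReal_ofNat, Real.rpow_ofNat, Real.norm_eq_abs] at h1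
    have h2 : ∑ _r ∈ s, β ^ 2 ≤ ∑ r ∈ s, |x r| ^ 2 := Finset.sum_le_sum fun r hr => by
      have := (hs r hr).le
      gcongr
    rw [Finset.sum_const, nsmul_eq_mul] at h2
    have h3 : ‖x‖ ^ 2 ≤ ρ ^ 2 := by gcongr
    have h4 : (s.card : ℝ) ≤ (ρ / β) ^ 2 := by
      rw [div_pow, le_div_iff₀ (by positivity)]; linarith
    exact_mod_cast h4.trans (Nat.le_ceil _)
  have hfin : {r : J | β < |x r|}.Finite := by
    by_contra hinf
    obtain ⟨s, hs1, hs2⟩ := Set.Infinite.exists_subset_card_eq hinf (⌈(ρ / β) ^ 2⌉₊ + 1)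
    have := key s fun r hr => hs1 hr
    omega
  exact ⟨hfin.toFinset, key _ fun r hr => by simpa using hr, fun r hr => by simpa using hr⟩

/-- the coordinates -/
noncomputable def F (δ : ℝ) (A : ℕ) (p : XX k) : J → ℝ
  | [] => ‖p‖
  | a :: t => if |a| ≤ A then min |v p t - δ * a| (max (osc p t - δ) 0) else 0

lemma F_lip (δ : ℝ) (A : ℕ) (p p' : XX k) (l : J) : |F δ A p l - F δ A p' l| ≤ 2 * ‖p - p'‖ := by
  have h0 := norm_nonneg (p - p')
  cases l with
  | nil => exact (abs_norm_sub_norm_le p p').trans (by linarith)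
  | cons a t =>
    simp only [F]
    split_ifs
    · refine (abs_min_sub_min_le_max _ _ _ _).trans (max_le ?_ ?_)
      · refine (abs_abs_sub_abs_le_abs_sub _ _).trans ?_
        rw [sub_sub_sub_cancel_right]
        linarith [v_sub p p' t]
      · refine (abs_max_sub_max_le_abs _ _ _).trans ?_
        rw [sub_sub_sub_cancel_right]
        exact osc_lip p p' t
    · simpa using h0

lemma F_zero {δ : ℝ} (hδ : 0 < δ) (A : ℕ) (l : J) : F δ A (0 : XX k) l = 0 := by
  cases l with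
  | nil => simp [F]
  | cons a t =>
    simp only [F]
    split_ifs
    · have := osc_le (0 : XX k) t
      rw [norm_zero] at this
      rw [max_eq_right (by linarith), min_eq_right (abs_nonneg _)]
    · rfl

lemma F_supp (k : ℕ) {δ : ℝ} (hδ : 0 < δ) (A : ℕ) (ρ : ℝ) : ∃ N : ℕ, ∀ p : XX k, ‖p‖ ≤ ρ →
    ∃ s : Finset J, s.card ≤ N ∧ ∀ l ∉ s, F δ A p l = 0 := by
  classical
  obtain ⟨M, hM⟩ := big_fin (β := δ / (k + 1)) (by positivity) ρ
  refine ⟨M * (k + 1) * (2 * A + 1) + 1, fun p hp => ?_⟩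
  obtain ⟨B, hB1, hB2⟩ := hM p.1.1 ((le_max_left _ _).trans hp)
  let T : Finset J := (B.filter fun r => r.length ≤ k).biUnion fun r => r.tails.toFinset
  have hT : T.card ≤ M * (k + 1) := by
    refine (Finset.card_biUnion_le_card_mul _ _ (k + 1) fun r hr => ?_).trans ?_
    · refine (List.toFinset_card_le _).trans ?_
      rw [List.length_tails]
      have := (Finset.mem_filter.1 hr).2
      omega
    · exact Nat.mul_le_mul_right _ ((Finset.card_filter_le _ _).trans hB1)
  refine ⟨insert [] ((T ×ˢ Finset.Icc (-(A : ℤ)) A).image fun z => z.2 :: z.1), ?_, fun l hl => ?_⟩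
  · refine (Finset.card_insert_le _ _).trans (Nat.succ_le_succ (Finset.card_image_le.trans ?_))
    rw [Finset.card_product, Int.card_Icc]
    refine Nat.mul_le_mul hT (le_of_eq ?_)
    omega
  · cases l with
    | nil => exact absurd (Finset.mem_insert_self _ _) hl
    | cons a t =>
      simp only [F]
      split_ifs with ha
      · have h1 : osc p t ≤ δ := by
          by_contra h2
          obtain ⟨r, r1, r2, r3⟩ := osc_big p t hδ (not_le.1 h2)
          refine hl (Finset.mem_insert_of_mem (Finset.mem_image.2 ⟨(t, a), ?_, rfl⟩))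
          refine Finset.mem_product.2 ⟨Finset.mem_biUnion.2 ⟨r,
            Finset.mem_filter.2 ⟨hB2 r r3, r2⟩, ?_⟩, Finset.mem_Icc.2 (abs_le.1 ha)⟩
          simpa using r1
        rw [max_eq_right (by linarith), min_eq_right (abs_nonneg _)]
      · rfl

lemma exists_node (p p' : XX k) {s : J} (hs : s.length ≤ k) {θ : ℝ} (hθ : 0 < θ)
    (hd : 3 * θ ≤ |v p s - v p' s|) :
    ∃ t, (θ ≤ osc p t ∨ θ ≤ osc p' t) ∧ θ ≤ |v p t - v p' t| := by
  by_contra hcon
  have key : ∀ w r : J, s = w ++ r → |v p s - v p r| ≤ θ ∧ |v p' s - v p' r| ≤ θ := by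
    intro w
    induction w using List.reverseRecOn with
    | nil => intro r hr; rw [List.nil_append] at hr; rw [hr]; simp [hθ.le]
    | append_singleton w n ih =>
      intro r hr
      rw [List.append_assoc, List.singleton_append] at hr
      obtain ⟨h1, h2⟩ := ih _ hr
      have hsuf : (n :: r) <:+ s := ⟨w, hr.symm⟩
      have h3 : θ ≤ |v p (n :: r) - v p' (n :: r)| := by
        have a1 := abs_sub_le (v p s) (v p (n :: r)) (v p' s)
        have a2 := abs_sub_le (v p (n :: r)) (v p' (n :: r)) (v p' s)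
        rw [abs_sub_comm] at h2
        linarith
      have h4 : ¬ (θ ≤ osc p (n :: r) ∨ θ ≤ osc p' (n :: r)) := fun h => hcon ⟨_, h, h3⟩
      rw [not_or, not_le, not_le] at h4
      exact ⟨(le_osc p hsuf hs).trans h4.1.le, (le_osc p' hsuf hs).trans h4.2.le⟩
  obtain ⟨h1, h2⟩ := key s [] (by simp)
  rw [v_nil, sub_zero] at h1 h2
  have := abs_sub (v p s) (v p' s)
  linarith

lemma F_lo' {δ : ℝ} (hδ : 0 < δ) {A : ℕ} (p p' : XX k) (hp' : ‖p'‖ + δ ≤ δ * A) {θ : ℝ} {t : J}
    (h1 : θ ≤ osc p t) (h2 : θ ≤ |v p t - v p' t|) :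
    ∃ l, θ - 2 * δ ≤ |F δ A p l - F δ A p' l| := by
  have hr : |v p' t - δ * round (v p' t / δ)| ≤ δ / 2 := by
    have := abs_sub_round (v p' t / δ)
    rw [show v p' t - δ * round (v p' t / δ) = δ * (v p' t / δ - round (v p' t / δ)) by
      field_simp, abs_mul, abs_of_pos hδ]
    nlinarith
  set a := round (v p' t / δ)
  have ha : |a| ≤ A := by
    have h3 := abs_sub_abs_le_abs_sub (δ * a) (v p' t)
    rw [abs_sub_comm, abs_mul, abs_of_pos hδ] at h3
    have h4 := v_le p' t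
    have h5 : δ * |(a : ℝ)| ≤ δ * A := by linarith
    exact_mod_cast le_of_mul_le_mul_left h5 hδ
  refine ⟨a :: t, le_trans ?_ (le_abs_self _)⟩
  simp only [F, if_pos ha]
  have h6 := min_le_left |v p' t - δ * a| (max (osc p' t - δ) 0)
  have h7 : θ - δ ≤ min |v p t - δ * a| (max (osc p t - δ) 0) := by
    refine le_min ?_ (le_max_of_le_left (by linarith))
    have := abs_sub_le (v p t) (δ * a) (v p' t)
    rw [abs_sub_comm (δ * a)] at this
    linarith
  linarith

lemma F_lo {δ : ℝ} (hδ : 0 < δ) {A : ℕ} (p p' : XX k) (hp : ‖p‖ + δ ≤ δ * A)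
    (hp' : ‖p'‖ + δ ≤ δ * A) (s : J) :
    ∃ l, |v p s - v p' s| ≤ 3 * |F δ A p l - F δ A p' l| + 6 * δ := by
  by_cases hs : s.length ≤ k
  · rcases (abs_nonneg (v p s - v p' s)).eq_or_lt with h0 | h0
    · exact ⟨[], by rw [← h0]; positivity⟩
    obtain ⟨t, h1, h2⟩ := exists_node p p' hs (θ := |v p s - v p' s| / 3) (by linarith)
      (by linarith)
    rcases h1 with h1 | h1
    · obtain ⟨l, hl⟩ := F_lo' hδ p p' hp' h1 h2
      exact ⟨l, by linarith⟩
    · obtain ⟨l, hl⟩ := F_lo' hδ p' p hp h1 (by rwa [abs_sub_comm (v p' t)])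
      exact ⟨l, by rw [abs_sub_comm (F δ A p l)]; linarith⟩
  · refine ⟨[], ?_⟩
    rw [v_eq, v_eq, uk, if_neg hs]
    simp; positivity

end one

/-- the additive error in the `k`-th summand -/
noncomputable def dl (k : ℕ) : ℝ := (1 / 2) ^ k

lemma dl_pos (k : ℕ) : 0 < dl k := by unfold dl; positivity

def AA (n : ℕ) : ℕ := 4 * 2 ^ n + 1

noncomputable def NN (k n : ℕ) : ℕ := (F_supp k (dl_pos k) (AA n) (4 * (dl k * 2 ^ n))).choose

/-- the exponents -/
noncomputable def Q (k : ℕ) : ℕ → ℝ≥0∞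
  | 0 => 2
  | n + 1 => ((2 * NN k n + 2 : ℕ) : ℝ≥0∞)

lemma Q_ge (k n : ℕ) : 2 ≤ (Q k n).toReal := by
  cases n with
  | zero => simp [Q]
  | succ n =>
    rw [Q, ENNReal.toReal_natCast]
    exact_mod_cast Nat.le_add_left _ _

lemma Q_ne_top (k n : ℕ) : Q k n ≠ ⊤ := by
  intro h
  have := Q_ge k n
  rw [h] at this; simp at this; linarith

instance (k n : ℕ) : Fact (1 ≤ Q k n) := ⟨by
  rw [← ENNReal.toReal_le_toReal (by simp) (Q_ne_top k n)]
  simpa using (Q_ge k n).trans' (by norm_num)⟩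

abbrev ZZ (k n : ℕ) : Type := lp (fun _ : J => ℝ) (Q k n)

variable {k : ℕ}

noncomputable def FF (n : ℕ) (p : XX k) : ZZ k (n + 1) :=
  ⟨F (dl k) (AA n) p, by
    obtain ⟨N, hN⟩ := F_supp k (dl_pos k) (AA n) ‖p‖
    obtain ⟨s, -, hs⟩ := hN p le_rfl
    refine (memℓp_zero (s.finite_toSet.subset fun l hl => ?_)).of_exponent_ge zero_le
    by_contra h
    exact hl (hs l h)⟩

lemma FF_apply (n : ℕ) (p : XX k) (l : J) : FF n p l = F (dl k) (AA n) p l := rfl

lemma FF_zero (n : ℕ) : FF n (0 : XX k) = 0 := by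
  apply lp.ext; funext l; exact F_zero (dl_pos k) _ l

lemma FF_lip (n : ℕ) {p p' : XX k} (hp : ‖p‖ ≤ 4 * (dl k * 2 ^ n))
    (hp' : ‖p'‖ ≤ 4 * (dl k * 2 ^ n)) : ‖FF n p - FF n p'‖ ≤ 4 * ‖p - p'‖ := by
  classical
  have hN := (F_supp k (dl_pos k) (AA n) (4 * (dl k * 2 ^ n))).choose_spec
  obtain ⟨s, hs1, hs2⟩ := hN p hp
  obtain ⟨s', hs1', hs2'⟩ := hN p' hp'
  have hq0 : 0 < (Q k (n + 1)).toReal := by linarith [Q_ge k (n + 1)]
  refine lp.norm_le_of_forall_sum_le hq0 (by positivity) fun t => ?_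
  have hq : (Q k (n + 1)).toReal = ((2 * NN k n + 2 : ℕ) : ℝ) := by
    rw [Q, ENNReal.toReal_natCast]
  have hc : ∀ l, (FF n p - FF n p') l = F (dl k) (AA n) p l - F (dl k) (AA n) p' l :=
    fun l => rfl
  rw [hq]
  simp only [Real.rpow_natCast, hc, Real.norm_eq_abs]
  set m := 2 * NN k n + 2 with hm
  calc ∑ l ∈ t, |F (dl k) (AA n) p l - F (dl k) (AA n) p' l| ^ m
      = ∑ l ∈ t ∩ (s ∪ s'), |F (dl k) (AA n) p l - F (dl k) (AA n) p' l| ^ m := by
        refine (Finset.sum_subset Finset.inter_subset_left fun l h1 h2 => ?_).symm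
        have h3 : l ∉ s ∪ s' := fun h => h2 (Finset.mem_inter.2 ⟨h1, h⟩)
        rw [Finset.mem_union, not_or] at h3
        rw [hs2 l h3.1, hs2' l h3.2]; simp [hm]
    _ ≤ ∑ l ∈ t ∩ (s ∪ s'), (2 * ‖p - p'‖) ^ m := Finset.sum_le_sum fun l _ =>
        pow_le_pow_left₀ (abs_nonneg _) (F_lip _ _ p p' l) m
    _ ≤ 2 ^ m * (2 * ‖p - p'‖) ^ m := by
        rw [Finset.sum_const, nsmul_eq_mul]
        refine mul_le_mul_of_nonneg_right ?_ (by positivity)
        have h1 : (t ∩ (s ∪ s')).card ≤ m :=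
          (Finset.card_le_card Finset.inter_subset_right).trans
            ((Finset.card_union_le s s').trans (by unfold NN at hm; omega))
        exact_mod_cast h1.trans Nat.lt_two_pow_self.le
    _ = _ := by rw [← mul_pow]; congr 1; ring

noncomputable def GG (n : ℕ) (p : XX k) : ZZ k (n + 1) := lam (dl k * 2 ^ n) ‖p‖ • FF n p

lemma GG_lip' (n : ℕ) {x y : XX k} (h : ‖y‖ ≤ ‖x‖) : ‖GG n x - GG n y‖ ≤ 132 * ‖x - y‖ := by
  have hT : (0 : ℝ) < dl k * 2 ^ n := by have := dl_pos k; positivity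
  set T : ℝ := dl k * 2 ^ n with hTdef
  have e : GG n x - GG n y = lam T ‖x‖ • (FF n x - FF n y) +
      (lam T ‖x‖ - lam T ‖y‖) • FF n y := by
    unfold GG; rw [smul_sub, sub_smul]; abel
  have t1 : ‖lam T ‖x‖ • (FF n x - FF n y)‖ ≤ 4 * ‖x - y‖ := by
    by_cases h0 : lam T ‖x‖ = 0
    · rw [h0, zero_smul, norm_zero]; positivity
    have h1 := (lam_supp hT h0).2
    have h2 := FF_lip n h1.le (h.trans h1.le)
    rw [norm_smul, Real.norm_of_nonneg (lam_nonneg _ _)]
    have := mul_le_of_le_one_left (norm_nonneg (FF n x - FF n y)) (lam_le T ‖x‖)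
    linarith
  have t2 : ‖(lam T ‖x‖ - lam T ‖y‖) • FF n y‖ ≤ 128 * ‖x - y‖ := by
    by_cases h0 : 4 * T ≤ ‖y‖
    · have a1 : lam T ‖x‖ = 0 := by
        by_contra h1; linarith [(lam_supp hT h1).2]
      have a2 : lam T ‖y‖ = 0 := by
        by_contra h1; linarith [(lam_supp hT h1).2]
      rw [a1, a2, sub_self, zero_smul, norm_zero]; positivity
    have h2 : ‖FF n y‖ ≤ 16 * T := by
      have := FF_lip n (p := y) (p' := 0) (not_le.1 h0).le (by rw [norm_zero]; positivity)
      rw [FF_zero, sub_zero, sub_zero] at this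
      linarith [not_le.1 h0]
    have h3 : |lam T ‖x‖ - lam T ‖y‖| ≤ 8 * ‖x - y‖ / T := by
      refine (lam_lip hT _ _).trans ?_
      gcongr
      exact abs_norm_sub_norm_le x y
    rw [norm_smul, Real.norm_eq_abs]
    calc _ ≤ 8 * ‖x - y‖ / T * (16 * T) := mul_le_mul h3 h2 (norm_nonneg _) (by positivity)
      _ = _ := by field_simp; ring
  rw [e]
  refine (norm_add_le _ _).trans ?_
  linarith

lemma GG_lip (n : ℕ) (x y : XX k) : ‖GG n x - GG n y‖ ≤ 132 * ‖x - y‖ := by
  rcases le_total ‖y‖ ‖x‖ with h | h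
  · exact GG_lip' n h
  · rw [norm_sub_rev, norm_sub_rev x]; exact GG_lip' n h

lemma GG_supp (x : XX k) : ∃ s : Finset ℕ, s.card ≤ 5 ∧ ∀ n ∉ s, GG n x = 0 := by
  classical
  have hd := dl_pos k
  by_cases h : ∃ n : ℕ, lam (dl k * 2 ^ n) ‖x‖ ≠ 0
  · refine ⟨Finset.Ico (Nat.find h) (Nat.find h + 5), by simp, fun n hn => ?_⟩
    by_contra h1
    have h2 : lam (dl k * 2 ^ n) ‖x‖ ≠ 0 := fun h0 => h1 (by rw [GG, h0, zero_smul])
    apply hn
    rw [Finset.mem_Ico]
    refine ⟨Nat.find_min' h h2, ?_⟩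
    have a1 := (lam_supp (by positivity) h2).1
    have a2 := (lam_supp (by positivity) (Nat.find_spec h)).2
    have a3 : dl k * 2 ^ n < dl k * 2 ^ (Nat.find h + 5) := by
      rw [pow_add]; norm_num at *; linarith
    exact (pow_lt_pow_iff_right₀ (by norm_num)).1 (lt_of_mul_lt_mul_left a3 hd.le)
  · push Not at h
    exact ⟨∅, by simp, fun n _ => by rw [GG, h n, zero_smul]⟩

noncomputable def cp (p : XX k) : (n : ℕ) → ZZ k n
  | 0 => p.1.1
  | n + 1 => GG n p

lemma cp_supp (x : XX k) : ∃ s : Finset ℕ, s.card ≤ 6 ∧ ∀ n ∉ s, cp x n = 0 := by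
  obtain ⟨s, h1, h2⟩ := GG_supp x
  refine ⟨insert 0 (s.image Nat.succ), (Finset.card_insert_le _ _).trans
    (Nat.succ_le_succ (Finset.card_image_le.trans h1)), fun n hn => ?_⟩
  cases n with
  | zero => exact absurd (Finset.mem_insert_self _ _) hn
  | succ n => exact h2 n fun h => hn (Finset.mem_insert_of_mem (Finset.mem_image_of_mem _ h))

lemma cp_lip (x y : XX k) (n : ℕ) : ‖cp x n - cp y n‖ ≤ 132 * ‖x - y‖ := by
  cases n with
  | zero =>
    have h : ‖(x - y).1.1‖ ≤ ‖x - y‖ := le_max_left _ _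
    have h0 := norm_nonneg (x - y)
    exact le_trans h (by linarith)
  | succ n => exact GG_lip n x y

abbrev WW (k : ℕ) : Type := lp (ZZ k) 2

noncomputable def fk (x : XX k) : WW k :=
  ⟨cp x, by
    obtain ⟨s, -, hs⟩ := cp_supp x
    refine (memℓp_zero (s.finite_toSet.subset fun n hn => ?_)).of_exponent_ge zero_le
    by_contra h
    exact hn (hs n h)⟩

lemma fk_zero : fk (0 : XX k) = 0 := by
  apply lp.ext; funext n
  cases n with
  | zero => rfl
  | succ n =>
    show GG n (0 : XX k) = 0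
    rw [GG, FF_zero, smul_zero]

lemma fk_up (x y : XX k) : ‖fk x - fk y‖ ≤ 1584 * ‖x - y‖ := by
  classical
  obtain ⟨s, hs1, hs2⟩ := cp_supp x
  obtain ⟨t, ht1, ht2⟩ := cp_supp y
  set w := fk x - fk y with hw
  have hvn : ∀ n, w n = cp x n - cp y n := fun n => rfl
  have h1 : w = ∑ n ∈ s ∪ t, lp.single 2 n (w n) := by
    refine (lp.hasSum_single (by norm_num) w).unique (hasSum_sum_of_ne_finset_zero fun n hn => ?_)
    rw [Finset.mem_union, not_or] at hn
    rw [hvn, hs2 n hn.1, ht2 n hn.2, sub_self, lp.single_zero]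
  rw [h1]
  refine (norm_sum_le _ _).trans ?_
  calc ∑ n ∈ s ∪ t, ‖lp.single (E := ZZ k) 2 n (w n)‖ ≤ ∑ n ∈ s ∪ t, 132 * ‖x - y‖ := by
        refine Finset.sum_le_sum fun n _ => ?_
        rw [lp.norm_single (by norm_num), hvn]
        exact cp_lip x y n
    _ ≤ _ := by
        rw [Finset.sum_const, nsmul_eq_mul]
        have : ((s ∪ t).card : ℝ) ≤ 12 := by
          exact_mod_cast (Finset.card_union_le s t).trans (by omega)
        nlinarith [norm_nonneg (x - y)]

lemma fk_lo' {x y : XX k} (h : ‖y‖ ≤ ‖x‖) : ‖x - y‖ ≤ 3 * ‖fk x - fk y‖ + 6 * dl k := by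
  have hd := norm_sub_le x y
  have hδ := dl_pos k
  have h0 := norm_nonneg (fk x - fk y)
  rcases lt_or_ge ‖x‖ (dl k) with h1 | h1
  · linarith
  obtain ⟨n, hn1, hn2⟩ := exists_nat_pow_near ((one_le_div hδ).2 h1) (by norm_num : (1 : ℝ) < 2)
  rw [le_div_iff₀ hδ, mul_comm] at hn1
  rw [div_lt_iff₀ hδ, pow_succ] at hn2
  have hT : (0 : ℝ) < dl k * 2 ^ n := by positivity
  have hx : GG n x = FF n x := by
    rw [GG, lam_one hT (by linarith) (by linarith), one_smul]
  have hc : ∀ l, |FF n x l - GG n y l| ≤ ‖fk x - fk y‖ := by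
    intro l
    have a1 := lp.norm_apply_le_norm (by norm_num) (fk x - fk y) (n + 1)
    rw [show (fk x - fk y) (n + 1) = GG n x - GG n y from rfl, hx] at a1
    exact (lp.norm_apply_le_norm (zero_lt_one.trans_le Fact.out).ne' (FF n x - GG n y) l).trans a1
  rcases le_or_gt (dl k * 2 ^ n / 4) ‖y‖ with h2 | h2
  · have hy : GG n y = FF n y := by
      rw [GG, lam_one hT h2 (by linarith), one_smul]
    rw [hy] at hc
    have hA : dl k * (AA n : ℝ) = 4 * (dl k * 2 ^ n) + dl k := by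
      unfold AA; push_cast; ring
    rw [XX_norm]
    refine max_le ?_ (lp.norm_le_of_forall_le (by positivity) fun s => ?_)
    · have a1 : ‖(x - y).1.1‖ ≤ ‖fk x - fk y‖ :=
        lp.norm_apply_le_norm (by norm_num) (fk x - fk y) 0
      linarith
    · obtain ⟨l, hl⟩ := F_lo hδ (A := AA n) x y (by linarith) (by linarith) s
      have a1 := hc l
      rw [FF_apply, FF_apply] at a1
      exact le_trans hl (by linarith)
  · have a1 := (le_abs_self _).trans (hc [])
    rw [show GG n y [] = lam (dl k * 2 ^ n) ‖y‖ * ‖y‖ from rfl,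
      show FF n x [] = ‖x‖ from rfl] at a1
    have a2 := mul_le_of_le_one_left (norm_nonneg y) (lam_le (dl k * 2 ^ n) ‖y‖)
    linarith

lemma fk_lo (x y : XX k) : ‖x - y‖ ≤ 3 * ‖fk x - fk y‖ + 6 * dl k := by
  rcases le_total ‖y‖ ‖x‖ with h | h
  · exact fk_lo' h
  · rw [norm_sub_rev, norm_sub_rev (fk x)]; exact fk_lo' h

/-- the target space -/
abbrev YB : Type := lp WW 2

noncomputable def fB (z : XB) : YB :=
  ⟨fun k => fk (z k), by
    refine memℓp_gen (Summable.of_nonneg_of_le (fun k => by positivity) (fun k => ?_)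
      ((lp.memℓp ((1584 : ℝ) • z)).summable (by norm_num)))
    refine Real.rpow_le_rpow (norm_nonneg _) ?_ (by norm_num)
    have := fk_up (z k) 0
    rw [fk_zero, sub_zero, sub_zero] at this
    rw [lp.coeFn_smul, Pi.smul_apply, norm_smul]
    simpa using this⟩

noncomputable def dv : lp (fun _ : ℕ => ℝ) 2 :=
  ⟨dl, (memℓp_gen (p := 1) (by
    simpa [dl] using summable_geometric_two)).of_exponent_ge (by norm_num)⟩

lemma fB_up (z z' : XB) : ‖fB z - fB z'‖ ≤ 1584 * ‖z - z'‖ := by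
  have h := lp.norm_mono (p := 2) (by norm_num) (x := fB z - fB z') (y := (1584 : ℝ) • (z - z'))
    fun k => by
      rw [lp.coeFn_smul, Pi.smul_apply, norm_smul, Real.norm_of_nonneg (by norm_num)]
      exact fk_up (z k) (z' k)
  rw [norm_smul] at h
  simpa using h

lemma fB_lo (z z' : XB) : ‖z - z'‖ ≤ 3 * ‖fB z - fB z'‖ + 6 * ‖dv‖ := by
  have h := lp.norm_mono (p := 2) (by norm_num) (x := z - z')
    (y := (3 : ℝ) • lp.toNorm (fB z - fB z') + (6 : ℝ) • dv) fun k =>
      (fk_lo (z k) (z' k)).trans (le_abs_self _)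
  refine h.trans ((norm_add_le _ _).trans ?_)
  rw [norm_smul, norm_smul, lp.norm_toNorm]
  simp

theorem YB_refl : Function.Surjective (NormedSpace.inclusionInDoubleDual ℝ YB) :=
  lp_refl (by norm_num) fun k => lp_refl (by norm_num) fun n =>
    lp_refl (by linarith [Q_ge k n]) fun _ => real_refl

theorem YB_up : Up YB :=
  lp_up (by norm_num) fun k => lp_up (by norm_num) fun n => lp_up (Q_ge k n) fun _ => real_up

theorem fB_cl : ∀ x x' : XB, ‖x - x'‖ / 1584 - (2 * ‖dv‖ + 1) ≤ ‖fB x - fB x'‖ ∧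
    ‖fB x - fB x'‖ ≤ 1584 * ‖x - x'‖ + (2 * ‖dv‖ + 1) := by
  intro x x'
  have h1 := fB_lo x x'
  have h2 := fB_up x x'
  have h3 := norm_nonneg dv
  have h4 := norm_nonneg (x - x')
  constructor <;> linarith

end Pool.Agent.H588Z.Wsc
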