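import Mathlib

/-! `ℓ_q`-sums with `q ≥ 2` have an asymptotic upper `2`-estimate, hence are AUS. -/

set_option autoImplicit false
set_option linter.unusedSectionVars false
set_option linter.deprecated false
set_option linter.unusedVariables false

open Filter Topology
open scoped ENNReal

namespace Pool.Agent.H588Z.Wsc

/-- asymptotic upper `2`-estimate at a dense set of points -/
def Up (Z : Type) [NormedAddCommGroup Z] [NormedSpace ℝ Z] : Prop :=
  ∀ (y : Z) (ε : ℝ), 0 < ε → ∃ y' : Z, ‖y - y'‖ ≤ ε ∧ ∃ Φ : Finset (Z →L[ℝ] ℝ),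
    ∀ z, (∀ φ ∈ Φ, φ z = 0) → ‖y' + z‖ ^ 2 ≤ ‖y'‖ ^ 2 + ‖z‖ ^ 2

theorem real_up : Up ℝ := by
  classical
  intro y ε hε
  refine ⟨y, by simpa using hε.le, {ContinuousLinearMap.id ℝ ℝ}, fun z hz => ?_⟩
  have : z = 0 := by simpa using hz
  simp [this]

section
variable {I : Type} {E : I → Type} [∀ i, NormedAddCommGroup (E i)] [∀ i, NormedSpace ℝ (E i)]
  {q : ℝ≥0∞} [Fact (1 ≤ q)]

lemma lp_sq_le (hq : 2 ≤ q.toReal) (w u v : lp E q)
    (h : ∀ i, ‖w i‖ ^ 2 ≤ ‖u i‖ ^ 2 + ‖v i‖ ^ 2) : ‖w‖ ^ 2 ≤ ‖u‖ ^ 2 + ‖v‖ ^ 2 := by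
  have hq0 : 0 < q.toReal := by linarith
  set r := q.toReal with hr
  have hsq : ∀ a : ℝ, 0 ≤ a → (a ^ 2) ^ (r / 2) = a ^ r := fun a ha => by
    rw [← Real.rpow_natCast, ← Real.rpow_mul ha]; congr 1; push_cast; ring
  have hb : ∀ (s : Finset I) (x : lp E q),
      (∑ i ∈ s, (‖x i‖ ^ 2) ^ (r / 2)) ^ (1 / (r / 2)) ≤ ‖x‖ ^ 2 := by
    intro s x
    simp only [hsq _ (norm_nonneg _)]
    refine (Real.rpow_le_rpow (Finset.sum_nonneg fun i _ => by positivity)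
      (lp.sum_rpow_le_norm_rpow hq0 x s) (by positivity)).trans (le_of_eq ?_)
    rw [← Real.rpow_mul (norm_nonneg _), ← Real.rpow_natCast, ← hr]; congr 1; push_cast; field_simp
  have h0 : 0 ≤ ‖u‖ ^ 2 + ‖v‖ ^ 2 := by positivity
  have key : ‖w‖ ≤ √(‖u‖ ^ 2 + ‖v‖ ^ 2) := by
    refine lp.norm_le_of_forall_sum_le hq0 (Real.sqrt_nonneg _) fun s => ?_
    have h1 := Real.Lp_add_le_of_nonneg s (f := fun i => ‖u i‖ ^ 2) (g := fun i => ‖v i‖ ^ 2)
      (p := r / 2) (by linarith) (fun i _ => by positivity) (fun i _ => by positivity)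
    have h2 := h1.trans (add_le_add (hb s u) (hb s v))
    have h3 : 0 ≤ ∑ i ∈ s, (‖u i‖ ^ 2 + ‖v i‖ ^ 2) ^ (r / 2) :=
      Finset.sum_nonneg fun i _ => by positivity
    have h4 := Real.rpow_le_rpow (by positivity) h2 (by positivity : 0 ≤ r / 2)
    rw [← Real.rpow_mul h3, one_div_mul_cancel (by positivity), Real.rpow_one] at h4
    rw [← hsq _ (Real.sqrt_nonneg _), Real.sq_sqrt h0]
    refine le_trans (Finset.sum_le_sum fun i _ => ?_) h4
    rw [← hsq _ (norm_nonneg _)]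
    exact Real.rpow_le_rpow (by positivity) (h i) (by positivity)
  calc ‖w‖ ^ 2 ≤ √(‖u‖ ^ 2 + ‖v‖ ^ 2) ^ 2 := by gcongr
    _ = _ := Real.sq_sqrt h0

theorem lp_up (hq : 2 ≤ q.toReal) (hE : ∀ i, Up (E i)) : Up (lp E q) := by
  classical
  intro y ε hε
  have hqt : q ≠ ⊤ := by rintro rfl; simp at hq; linarith
  have hq0 : (0 : ℝ≥0∞) < q := zero_lt_one.trans_le Fact.out
  obtain ⟨s, hs⟩ : ∃ s : Finset I, ‖y - ∑ i ∈ s, lp.single q i (y i)‖ < ε / 2 := by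
    have := (lp.hasSum_single hqt y)
    rw [HasSum, Metric.tendsto_nhds] at this
    obtain ⟨s, hs⟩ := (this _ (half_pos hε)).exists
    exact ⟨s, by rwa [dist_comm, dist_eq_norm] at hs⟩
  have hη : 0 < ε / (2 * (s.card + 1)) := by positivity
  choose y' hy' Φ hΦ using fun i => hE i (y i) _ hη
  refine ⟨∑ i ∈ s, lp.single q i (y' i), ?_,
    s.biUnion fun i => (Φ i).image fun φ => φ.comp (lp.evalCLM ℝ E q i), fun z hz => ?_⟩
  · have h1 : ‖∑ i ∈ s, lp.single q i (y i) - ∑ i ∈ s, lp.single (E := E) q i (y' i)‖ ≤ ε / 2 := by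
      rw [← Finset.sum_sub_distrib]
      refine (norm_sum_le _ _).trans ?_
      calc ∑ i ∈ s, ‖lp.single q i (y i) - lp.single (E := E) q i (y' i)‖
          ≤ ∑ i ∈ s, ε / (2 * (s.card + 1)) := Finset.sum_le_sum fun i _ => by
            rw [← lp.single_sub, lp.norm_single hq0]; exact hy' i
        _ ≤ ε / 2 := by
            rw [Finset.sum_const, nsmul_eq_mul, ← mul_div_assoc,
              div_le_div_iff₀ (by positivity) (by positivity)]
            nlinarith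
    have := norm_sub_le_norm_sub_add_norm_sub y (∑ i ∈ s, lp.single q i (y i))
      (∑ i ∈ s, lp.single (E := E) q i (y' i))
    linarith
  · refine lp_sq_le hq _ _ _ fun i => ?_
    have hc : (∑ j ∈ s, lp.single (E := E) q j (y' j)) i = if i ∈ s then y' i else 0 := by
      simp only [lp.coeFn_sum, Finset.sum_apply, lp.coeFn_single, Finset.sum_pi_single]
    rw [lp.coeFn_add, Pi.add_apply, hc]
    split_ifs with hi
    · refine hΦ i _ fun φ hφ => hz (φ.comp (lp.evalCLM ℝ E q i)) ?_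
      exact Finset.mem_biUnion.2 ⟨i, hi, Finset.mem_image_of_mem _ hφ⟩
    · simp

end

theorem Up.aus {Z : Type} [NormedAddCommGroup Z] [NormedSpace ℝ Z] (h : Up Z) :
    ∀ ε : ℝ, 0 < ε → ∃ δ : ℝ, 0 < δ ∧ ∀ t : ℝ, 0 < t → t < δ → ∀ x : Z, ‖x‖ = 1 →
      ∃ F : Finset (Z →L[ℝ] ℝ), ∀ y : Z, (∀ g ∈ F, g y = 0) → ‖y‖ ≤ t →
        ‖x + y‖ ≤ 1 + ε * t := by
  intro ε hε
  refine ⟨ε, hε, fun t ht htε x hx => ?_⟩
  have hη : 0 < ε * t / 4 := by positivity
  obtain ⟨x', h1, F, hF⟩ := h x _ hη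
  refine ⟨F, fun y hy hyt => ?_⟩
  have h2 := hF y hy
  have h3 : ‖x'‖ ≤ 1 + ε * t / 4 := by
    have := norm_sub_norm_le x' x
    rw [norm_sub_rev] at this; linarith
  have h4 : ‖x' + y‖ ≤ 1 + ε * t / 4 + t ^ 2 / 2 := by
    refine (abs_le_of_sq_le_sq' ?_ (by positivity)).2
    have a1 : ‖x'‖ ^ 2 ≤ (1 + ε * t / 4) ^ 2 := by gcongr
    have a2 : ‖y‖ ^ 2 ≤ t ^ 2 := by gcongr
    have a3 : 0 ≤ ε * t / 4 * t ^ 2 := by positivity
    nlinarith [sq_nonneg (t ^ 2)]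
  have h5 : ‖x + y‖ ≤ ‖x - x'‖ + ‖x' + y‖ := by
    rw [show x + y = (x - x') + (x' + y) by abel]; exact norm_add_le _ _
  nlinarith

/-- a finite set of functionals cuts out a closed subspace of finite codimension -/
theorem exists_sub {Z : Type} [NormedAddCommGroup Z] [NormedSpace ℝ Z] (F : Finset (Z →L[ℝ] ℝ)) :
    ∃ E : Submodule ℝ Z, IsClosed (E : Set Z) ∧ FiniteDimensional ℝ (Z ⧸ E) ∧
      ∀ y ∈ E, ∀ g ∈ F, g y = 0 := by
  let L : Z →L[ℝ] (F → ℝ) := ContinuousLinearMap.pi fun g => g.1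
  refine ⟨LinearMap.ker (L : Z →ₗ[ℝ] (F → ℝ)), L.isClosed_ker,
    (LinearMap.quotKerEquivRange (L : Z →ₗ[ℝ] (F → ℝ))).symm.finiteDimensional, fun y hy g hg => ?_⟩
  exact congrFun (LinearMap.mem_ker.1 hy) ⟨g, hg⟩

/-- a weakly null sequence approaches every closed subspace of finite codimension -/
theorem near_sub {Z : Type} [NormedAddCommGroup Z] [NormedSpace ℝ Z] (E : Submodule ℝ Z)
    (hE : IsClosed (E : Set Z)) (hf : FiniteDimensional ℝ (Z ⧸ E)) (w : ℕ → Z)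
    (hw : ∀ φ : Z →L[ℝ] ℝ, Tendsto (fun n => φ (w n)) atTop (𝓝 0)) {η : ℝ} (hη : 0 < η) :
    ∃ n, ∃ z ∈ E, ‖w n - z‖ < η := by
  haveI := hE
  let π : Z →L[ℝ] (Z ⧸ E) := E.mkQ.mkContinuous 1 fun x => by
    simpa using Submodule.Quotient.norm_mk_le E x
  let b := Module.finBasis ℝ (Z ⧸ E)
  have h1 : Tendsto (fun n => b.equivFunL (π (w n))) atTop (𝓝 0) := by
    rw [tendsto_pi_nhds]
    intro i
    exact hw ((ContinuousLinearMap.proj (R := ℝ) (φ := fun _ => ℝ) i).comp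
      (b.equivFunL.toContinuousLinearMap.comp π))
  have h2 : Tendsto (fun n => π (w n)) atTop (𝓝 0) := by
    have := (b.equivFunL.symm.continuous.tendsto 0).comp h1
    simpa [Function.comp_def] using this
  rw [tendsto_zero_iff_norm_tendsto_zero] at h2
  obtain ⟨n, hn⟩ := (h2.eventually (gt_mem_nhds (half_pos hη))).exists
  obtain ⟨m, hm1, hm2⟩ := Submodule.Quotient.norm_mk_lt (π (w n)) (half_pos hη)
  refine ⟨n, w n - m, ?_, ?_⟩
  · exact (Submodule.Quotient.eq E).1 hm1.symm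
  · rw [sub_sub_cancel]; linarith

end Pool.Agent.H588Z.Wsc
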