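import Pool.Agent.H588Z.Wsc.LpRefl
import Pool.Agent.H588Z.Wsc.AusY

/-! The space `X = (⊕_k X_k)_{ℓ_2}`, `X_k = ℓ_2(tree)` normed by the maximum of the `ℓ_2` norm and of
the sums along initial segments of length at most `k`; it has no equivalent AUS norm. -/

set_option autoImplicit false
set_option linter.unusedSectionVars false
set_option linter.deprecated false
set_option linter.unusedVariables false

open Filter Topology
open scoped ENNReal

namespace Pool.Agent.H588Z.Wsc

/-- the tree: the parent of `n :: l` is `l` -/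
abbrev J : Type := List ℤ

abbrev H2 : Type := lp (fun _ : J => ℝ) 2

abbrev LI : Type := lp (fun _ : J => ℝ) ∞

/-- sum along the path from the root -/
noncomputable def ul : J → (H2 →L[ℝ] ℝ)
  | [] => 0
  | n :: l => lp.evalCLM ℝ (fun _ : J => ℝ) 2 (n :: l) + ul l

lemma ul_cons (n : ℤ) (l : J) (x : H2) : ul (n :: l) x = x (n :: l) + ul l x := rfl

lemma ul_nil (x : H2) : ul [] x = 0 := rfl

lemma ul_le (l : J) (x : H2) : |ul l x| ≤ l.length * ‖x‖ := by
  induction l with
  | nil => simp [ul_nil]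
  | cons n l ih =>
    rw [ul_cons]
    have h := lp.norm_apply_le_norm (by norm_num) x (n :: l)
    rw [Real.norm_eq_abs] at h
    have := abs_add_le (x (n :: l)) (ul l x)
    simp only [List.length_cons]; push_cast; linarith

noncomputable def uk (k : ℕ) (l : J) : H2 →L[ℝ] ℝ := if l.length ≤ k then ul l else 0

lemma uk_le (k : ℕ) (l : J) (x : H2) : ‖uk k l x‖ ≤ k * ‖x‖ := by
  unfold uk
  split_ifs with h
  · refine (ul_le l x).trans (mul_le_mul_of_nonneg_right ?_ (norm_nonneg _))
    exact_mod_cast h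
  · simp; positivity

noncomputable def U (k : ℕ) : H2 →L[ℝ] LI :=
  LinearMap.mkContinuous
    { toFun := fun x => ⟨fun l => uk k l x, memℓp_infty ⟨k * ‖x‖, by
        rintro _ ⟨l, rfl⟩; exact uk_le k l x⟩⟩
      map_add' := fun x y => by
        apply lp.ext; funext l; exact map_add (uk k l) x y
      map_smul' := fun c x => by
        apply lp.ext; funext l; exact map_smul (uk k l) c x } k
    fun x => lp.norm_le_of_forall_le (by positivity) fun l => uk_le k l x

lemma U_apply (k : ℕ) (x : H2) (l : J) : U k x l = uk k l x := rfl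

/-- the `k`-th summand -/
noncomputable def XS (k : ℕ) : Submodule ℝ (H2 × LI) := (U k : H2 →ₗ[ℝ] LI).graph

abbrev XX (k : ℕ) : Type := XS k

lemma XX_snd {k : ℕ} (p : XX k) : p.1.2 = U k p.1.1 := p.2

instance (k : ℕ) : CompleteSpace (XX k) := by
  have : IsClosed (XS k : Set (H2 × LI)) :=
    isClosed_eq continuous_snd ((U k).continuous.comp continuous_fst)
  exact this.completeSpace_coe

noncomputable def incl (k : ℕ) : H2 →L[ℝ] XX k :=
  ((ContinuousLinearMap.id ℝ H2).prod (U k)).codRestrict (XS k) fun x => rfl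

lemma XX_norm {k : ℕ} (p : XX k) : ‖p‖ = max ‖p.1.1‖ ‖p.1.2‖ := rfl

abbrev XB : Type := lp XX 2

noncomputable def io (k : ℕ) : H2 →L[ℝ] XB := (lp.singleContinuousLinearMap ℝ XX 2 k).comp (incl k)

lemma io_norm (k : ℕ) (x : H2) : ‖io k x‖ = max ‖x‖ ‖U k x‖ := by
  show ‖lp.single (E := XX) 2 k (incl k x)‖ = _
  rw [lp.norm_single (by norm_num)]; rfl

noncomputable def ee (j : J) : H2 := lp.single 2 j 1

lemma ee_apply (j l : J) : ee j l = if l = j then 1 else 0 := by
  unfold ee
  rw [lp.single_apply, Pi.single_apply]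

lemma ul_ee_zero (j l : J) (h : l.length < j.length) : ul l (ee j) = 0 := by
  induction l with
  | nil => rfl
  | cons n l ih =>
    rw [ul_cons, ee_apply, if_neg (by rintro rfl; simp at h), ih (by simp at h; omega), add_zero]

lemma ul_ee_le (j l : J) : |ul l (ee j)| ≤ 1 := by
  induction l with
  | nil => simp [ul_nil]
  | cons n l ih =>
    rw [ul_cons, ee_apply]
    split_ifs with h
    · rw [ul_ee_zero j l (by rw [← h]; simp)]; simp
    · simpa using ih

lemma io_ee (k : ℕ) (j : J) : ‖io k (ee j)‖ ≤ 1 := by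
  rw [io_norm]
  refine max_le (by unfold ee; rw [lp.norm_single (by norm_num)]; simp)
    (lp.norm_le_of_forall_le zero_le_one fun l => ?_)
  rw [U_apply, uk]
  split_ifs
  · exact ul_ee_le j l
  · simp

lemma ee_null (t : J) (ψ : H2 →L[ℝ] ℝ) :
    Tendsto (fun n : ℕ => ψ (ee ((n : ℤ) :: t))) atTop (𝓝 0) := by
  have hc : (2 : ℝ).HolderConjugate (2 : ENNReal).toReal := by
    simpa using Real.HolderConjugate.two_two
  have hinj : Function.Injective fun n : ℕ => ((n : ℤ) :: t : J) := fun a b h => by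
    simpa using h
  have h1 := ((dual_summable (E := fun _ : J => ℝ) (p := 2) hc ψ).comp_injective
    hinj).tendsto_atTop_zero
  have h2 := h1.rpow_const (p := 1 / 2) (Or.inr (by norm_num))
  rw [Real.zero_rpow (by norm_num)] at h2
  rw [tendsto_zero_iff_norm_tendsto_zero]
  refine squeeze_zero (fun _ => norm_nonneg _) (fun m => ?_) h2
  rw [Function.comp_apply, ← Real.rpow_mul (norm_nonneg _)]
  norm_num
  simpa [ee] using
    (ψ.comp (lp.singleContinuousLinearMap ℝ (fun _ : J => ℝ) 2 ((m : ℤ) :: t))).le_opNorm 1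

theorem not_aus (N : XB → ℝ) (hadd : ∀ x y, N (x + y) ≤ N x + N y)
    (hsm : ∀ (r : ℝ) x, N (r • x) = |r| * N x) {c C : ℝ} (hc : 0 < c)
    (hN : ∀ x, c * ‖x‖ ≤ N x ∧ N x ≤ C * ‖x‖)
    (haus : ∀ ε : ℝ, 0 < ε → ∃ δ : ℝ, 0 < δ ∧ ∀ t : ℝ, 0 < t → t < δ → ∀ x : XB, N x = 1 →
      ∃ E : Submodule ℝ XB, IsClosed (E : Set XB) ∧ FiniteDimensional ℝ (XB ⧸ E) ∧
        ∀ y ∈ E, N y ≤ t → N (x + y) ≤ 1 + ε * t) : False := by
  have hcC : c ≤ C := by
    have h1 := hN (io 0 (ee []))
    have h2 : 0 < ‖io 0 (ee [])‖ := by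
      rw [io_norm]
      refine lt_max_of_lt_left ?_
      unfold ee; rw [lp.norm_single (by norm_num)]; simp
    exact le_of_mul_le_mul_right (h1.1.trans h1.2) h2
  have hC : 0 < C := hc.trans_le hcC
  obtain ⟨δ, hδ, hA⟩ := haus (c / (8 * C)) (by positivity)
  set K := 4 * C / δ + C with hK
  have hK0 : 0 ≤ 4 * C / δ := by positivity
  obtain ⟨k, hk⟩ := exists_nat_gt (2 * K / c)
  have ind : ∀ j : ℕ, ∃ (t : J) (x : H2), t.length = j ∧ ul t x = j ∧
      (∀ l : J, j < l.length → x l = 0) ∧ N (io k x) ≤ K + j * (c / 2) := by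
    intro j
    induction j with
    | zero =>
      refine ⟨[], 0, rfl, by simp, fun l _ => rfl, ?_⟩
      have := (hN (io k 0)).2
      simp only [map_zero, norm_zero, mul_zero] at this ⊢
      simp only [Nat.cast_zero, zero_mul, add_zero]
      linarith
    | succ j ih =>
      obtain ⟨t, x, h1, h2, h3, h4⟩ := ih
      have hj : (0 : ℝ) ≤ j * (c / 2) := by positivity
      suffices hs : ∃ n : ℤ, N (io k x + io k (ee (n :: t))) ≤ K + (j + 1) * (c / 2) by
        obtain ⟨n, hn⟩ := hs
        refine ⟨n :: t, x + ee (n :: t), by simp [h1], ?_, fun l hl => ?_, ?_⟩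
        · rw [map_add, ul_cons, ul_cons, h3 _ (by simp [h1]), h2, ee_apply, if_pos rfl,
            ul_ee_zero _ _ (by simp)]
          push_cast; ring
        · rw [lp.coeFn_add, Pi.add_apply, h3 l (by omega), ee_apply,
            if_neg (by rintro rfl; simp [h1] at hl), add_zero]
        · rw [map_add]; push_cast; exact hn
      set a := N (io k x) with ha
      by_cases hsmall : a ≤ 4 * C / δ
      · refine ⟨0, (hadd _ _).trans ?_⟩
        have := (hN (io k (ee (0 :: t)))).2
        have := mul_le_mul_of_nonneg_left (io_ee k (0 :: t)) hC.le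
        nlinarith
      rw [not_le] at hsmall
      have ha0 : 0 < a := hK0.trans_lt hsmall
      obtain ⟨E, hE1, hE2, hE3⟩ := hA (2 * C / a) (by positivity) (by
        rw [div_lt_iff₀ hδ] at hsmall
        rw [div_lt_iff₀ ha0]; nlinarith) (a⁻¹ • io k x) (by
        rw [hsm, abs_of_pos (inv_pos.2 ha0), ← ha, inv_mul_cancel₀ ha0.ne'])
      obtain ⟨n, z, hz1, hz2⟩ := near_sub E hE1 hE2 (fun n : ℕ => io k (ee ((n : ℤ) :: t)))
        (fun φ => ee_null t (φ.comp (io k))) (η := c / (4 * C)) (by positivity)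
      refine ⟨n, ?_⟩
      set e := io k (ee ((n : ℤ) :: t)) with he
      have he1 : ‖e‖ ≤ 1 := io_ee k _
      have hη1 : c / (4 * C) ≤ 1 := by rw [div_le_one (by positivity)]; linarith
      have hz3 : ‖z‖ ≤ 2 := by
        have := norm_sub_norm_le z e
        rw [norm_sub_rev] at this; linarith
      have hz4 : N z ≤ 2 * C := by
        have := (hN z).2
        nlinarith
      have h5 := hE3 (a⁻¹ • z) (E.smul_mem _ hz1) (by
        rw [hsm, abs_of_pos (inv_pos.2 ha0), inv_mul_eq_div]
        gcongr)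
      rw [← smul_add, hsm, abs_of_pos (inv_pos.2 ha0), inv_mul_le_iff₀ ha0] at h5
      have h6 : a * (1 + c / (8 * C) * (2 * C / a)) = a + c / 4 := by field_simp; ring
      have h7 : N (e - z) ≤ c / 4 := by
        have h8 := (hN (e - z)).2
        have h9 : C * (c / (4 * C)) = c / 4 := by field_simp
        have := mul_le_mul_of_nonneg_left hz2.le hC.le
        linarith
      have h10 := hadd (io k x + z) (e - z)
      rw [show io k x + z + (e - z) = io k x + e by abel] at h10
      linarith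
  obtain ⟨t, x, h1, h2, -, h4⟩ := ind k
  have h5 : (k : ℝ) ≤ ‖io k x‖ := by
    rw [io_norm]
    refine le_max_of_le_right (le_trans ?_ (lp.norm_apply_le_norm (by norm_num) (U k x) t))
    rw [U_apply, uk, if_pos h1.le, h2]; simp
  have h6 := (hN (io k x)).1
  rw [div_lt_iff₀ hc] at hk
  nlinarith

end Pool.Agent.H588Z.Wsc
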