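import Mathlib

/-! `ℓ_p`-sums (`1 < p < ∞`) of reflexive spaces are reflexive; countable sums of separable spaces are separable. -/

set_option autoImplicit false
set_option linter.unusedSectionVars false
set_option linter.deprecated false

open Filter Topology
open scoped ENNReal

namespace Pool.Agent.H588Z.Wsc

theorem lp_sep {I : Type} [Countable I] (E : I → Type) [∀ i, NormedAddCommGroup (E i)]
    [∀ i, NormedSpace ℝ (E i)] [∀ i, TopologicalSpace.SeparableSpace (E i)] (p : ℝ≥0∞)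
    [Fact (1 ≤ p)] (hp : p ≠ ⊤) : TopologicalSpace.SeparableSpace (lp E p) := by
  classical
  have h1 : TopologicalSpace.IsSeparable (⋃ i : I, Set.range (lp.single (E := E) p i)) :=
    TopologicalSpace.IsSeparable.iUnion fun i =>
      TopologicalSpace.isSeparable_range (lp.isometry_single (E := E) (p := p) i).continuous
  have h2 := (h1.span (R := ℝ)).closure
  rw [← TopologicalSpace.isSeparable_univ_iff]
  refine h2.mono ?_
  intro f _
  have hf := lp.hasSum_single (E := E) (p := p) hp f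
  refine mem_closure_of_tendsto hf (Filter.Eventually.of_forall fun s => ?_)
  refine Submodule.sum_mem _ fun i _ => Submodule.subset_span ?_
  exact Set.mem_iUnion.2 ⟨i, _, rfl⟩

theorem real_refl : Function.Surjective (NormedSpace.inclusionInDoubleDual ℝ ℝ) := by
  intro F
  refine ⟨F (ContinuousLinearMap.id ℝ ℝ), ?_⟩
  ext φ
  have h : φ = (φ 1) • ContinuousLinearMap.id ℝ ℝ := by
    ext; simp
  rw [NormedSpace.dual_def]
  conv_rhs => rw [h, map_smul]
  have : φ (F (ContinuousLinearMap.id ℝ ℝ)) = φ (F (ContinuousLinearMap.id ℝ ℝ) • (1 : ℝ)) := by simp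
  rw [this, map_smul]
  simp [mul_comm]

lemma bound_of_le {A M t : ℝ} (hA : 0 ≤ A) (hM : 0 ≤ M) (ht : t < 1) (h : A ≤ M * A ^ t) :
    A ≤ M ^ (1 / (1 - t)) := by
  rcases hA.eq_or_lt with h0 | h0
  · rw [← h0]; positivity
  have h1 : A ^ (1 - t) ≤ M := by
    rw [Real.rpow_sub h0, Real.rpow_one, div_le_iff₀ (Real.rpow_pos_of_pos h0 t)]
    exact h
  have h2 : 0 < 1 - t := by linarith
  calc A = (A ^ (1 - t)) ^ (1 / (1 - t)) := by
        rw [← Real.rpow_mul hA, mul_one_div_cancel h2.ne', Real.rpow_one]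
    _ ≤ M ^ (1 / (1 - t)) := Real.rpow_le_rpow (by positivity) h1 (by positivity)

section
variable {I : Type} {E : I → Type} [∀ i, NormedAddCommGroup (E i)] [∀ i, NormedSpace ℝ (E i)]
  {p : ℝ≥0∞} [Fact (1 ≤ p)]

lemma holder_fin {r : ℝ} (hpr : r.HolderConjugate p.toReal) (a : I → ℝ) (ha : ∀ i, 0 ≤ a i)
    (s : Finset I) (x : lp E p) :
    ∑ i ∈ s, a i * ‖x i‖ ≤ (∑ i ∈ s, a i ^ r) ^ (1 / r) * ‖x‖ := by
  have hp0 : 0 < p.toReal := hpr.symm.pos
  have h := Real.inner_le_Lp_mul_Lq_of_nonneg s (f := a) (g := fun i => ‖x i‖) hpr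
    (fun i _ => ha i) (fun i _ => norm_nonneg _)
  refine h.trans (mul_le_mul_of_nonneg_left ?_ (by
    have : 0 ≤ ∑ i ∈ s, a i ^ r := Finset.sum_nonneg fun i _ => Real.rpow_nonneg (ha i) _
    positivity))
  have h2 := lp.sum_rpow_le_norm_rpow hp0 x s
  calc (∑ i ∈ s, ‖x i‖ ^ p.toReal) ^ (1 / p.toReal) ≤ (‖x‖ ^ p.toReal) ^ (1 / p.toReal) :=
        Real.rpow_le_rpow (Finset.sum_nonneg fun i _ => by positivity) h2 (by positivity)
    _ = ‖x‖ := by
        rw [← Real.rpow_mul (norm_nonneg _), mul_one_div_cancel hp0.ne', Real.rpow_one]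

lemma dual_summable [DecidableEq I] {r : ℝ} (hpr : r.HolderConjugate p.toReal)
    (Φ : lp E p →L[ℝ] ℝ) :
    Summable fun i => ‖Φ.comp (lp.singleContinuousLinearMap ℝ E p i)‖ ^ r := by
  have hp0 : 0 < p.toReal := hpr.symm.pos
  have hr1 : 1 < r := hpr.lt
  set a : I → ℝ := fun i => ‖Φ.comp (lp.singleContinuousLinearMap ℝ E p i)‖ with ha
  have ha0 : ∀ i, 0 ≤ a i := fun i => norm_nonneg _
  have hx : ∀ i, ∃ x : E i, ‖x‖ ≤ 1 ∧ a i / 2 ≤ Φ (lp.single p i x) := by
    intro i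
    rcases (ha0 i).eq_or_lt with h0 | h0
    · exact ⟨0, by simp, by simp [← h0]⟩
    obtain ⟨x, hx1, hx2⟩ := ContinuousLinearMap.exists_lt_apply_of_lt_opNorm
      (Φ.comp (lp.singleContinuousLinearMap ℝ E p i)) (r := a i / 2) (by
        show a i / 2 < a i
        linarith)
    simp only [ContinuousLinearMap.comp_apply, lp.singleContinuousLinearMap_apply,
      Real.norm_eq_abs] at hx2
    rcases le_total 0 (Φ (lp.single p i x)) with h | h
    · exact ⟨x, hx1.le, by rw [abs_of_nonneg h] at hx2; exact hx2.le⟩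
    · refine ⟨-x, by simpa using hx1.le, ?_⟩
      rw [abs_of_nonpos h] at hx2
      rw [lp.single_neg, map_neg]; exact hx2.le
  choose x hx1 hx2 using hx
  refine summable_of_sum_le (c := (2 * ‖Φ‖) ^ (1 / (1 - 1 / p.toReal)))
    (fun i => Real.rpow_nonneg (ha0 i) _) fun s => ?_
  set A := ∑ i ∈ s, a i ^ r with hA
  have hA0 : 0 ≤ A := Finset.sum_nonneg fun i _ => Real.rpow_nonneg (ha0 i) _
  refine bound_of_le hA0 (by positivity) (by
    rw [div_lt_one hp0]; exact hpr.symm.lt) ?_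
  set z : lp E p := ∑ i ∈ s, lp.single p i ((a i ^ (r - 1)) • x i) with hz
  have hz1 : ‖z‖ ^ p.toReal ≤ A := by
    rw [hz, lp.norm_sum_single hp0 (fun i => (a i ^ (r - 1)) • x i) s]
    refine Finset.sum_le_sum fun i _ => ?_
    have h1 : ‖(a i ^ (r - 1)) • x i‖ ≤ a i ^ (r - 1) := by
      rw [norm_smul, Real.norm_of_nonneg (Real.rpow_nonneg (ha0 i) _)]
      exact mul_le_of_le_one_right (Real.rpow_nonneg (ha0 i) _) (hx1 i)
    calc ‖(a i ^ (r - 1)) • x i‖ ^ p.toReal ≤ (a i ^ (r - 1)) ^ p.toReal :=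
          Real.rpow_le_rpow (norm_nonneg _) h1 hp0.le
      _ = a i ^ r := by rw [← Real.rpow_mul (ha0 i), hpr.sub_one_mul_conj]
  have hz2 : ‖z‖ ≤ A ^ (1 / p.toReal) := by
    calc ‖z‖ = (‖z‖ ^ p.toReal) ^ (1 / p.toReal) := by
          rw [← Real.rpow_mul (norm_nonneg _), mul_one_div_cancel hp0.ne', Real.rpow_one]
      _ ≤ _ := Real.rpow_le_rpow (by positivity) hz1 (by positivity)
  have hz3 : A / 2 ≤ Φ z := by
    rw [hz, map_sum, hA, Finset.sum_div]
    refine Finset.sum_le_sum fun i _ => ?_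
    rw [lp.single_smul, map_smul, smul_eq_mul]
    have h1 : a i ^ r = a i ^ (r - 1) * a i := by
      rcases (ha0 i).eq_or_lt with h0 | h0
      · rw [← h0, Real.zero_rpow (by linarith), mul_zero]
      · rw [Real.rpow_sub_one h0.ne']; field_simp
    rw [h1, mul_div_assoc]
    exact mul_le_mul_of_nonneg_left (hx2 i) (Real.rpow_nonneg (ha0 i) _)
  have hz4 : Φ z ≤ ‖Φ‖ * ‖z‖ := (le_abs_self _).trans (Φ.le_opNorm z)
  have : ‖Φ‖ * ‖z‖ ≤ ‖Φ‖ * A ^ (1 / p.toReal) := mul_le_mul_of_nonneg_left hz2 (norm_nonneg _)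
  linarith

/-- the finite parts of a functional converge to it in norm -/
lemma dual_tendsto [DecidableEq I] (hp1 : 1 < p.toReal) (Φ : lp E p →L[ℝ] ℝ) :
    Tendsto (fun s : Finset I => ∑ i ∈ s,
      (Φ.comp (lp.singleContinuousLinearMap ℝ E p i)).comp (lp.evalCLM ℝ E p i)) atTop (𝓝 Φ) := by
  have hpt : p ≠ ⊤ := by rintro rfl; simp at hp1; linarith
  have hpr : (Real.conjExponent p.toReal).HolderConjugate p.toReal :=
    (Real.HolderConjugate.conjExponent hp1).symm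
  set r := Real.conjExponent p.toReal
  have hr0 : 0 < r := hpr.pos
  set a : I → ℝ := fun i => ‖Φ.comp (lp.singleContinuousLinearMap ℝ E p i)‖ with ha
  have ha0 : ∀ i, 0 ≤ a i := fun i => norm_nonneg _
  have hs : Summable fun i => a i ^ r := dual_summable hpr Φ
  set T := ∑' i, a i ^ r
  have hT : ∀ s : Finset I, ∑ i ∈ s, a i ^ r ≤ T := fun s =>
    hs.sum_le_tsum s fun i _ => Real.rpow_nonneg (ha0 i) _
  have key : ∀ s : Finset I, ‖(∑ i ∈ s,
      (Φ.comp (lp.singleContinuousLinearMap ℝ E p i)).comp (lp.evalCLM ℝ E p i)) - Φ‖ ≤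
      (T - ∑ i ∈ s, a i ^ r) ^ (1 / r) := by
    intro s
    have h0 : 0 ≤ T - ∑ i ∈ s, a i ^ r := sub_nonneg.2 (hT s)
    refine ContinuousLinearMap.opNorm_le_bound _ (by positivity) fun x => ?_
    have hx : Tendsto (fun t : Finset I => ∑ i ∈ t, Φ (lp.single p i (x i))) atTop (𝓝 (Φ x)) :=
      (lp.hasSum_single hpt x).mapL Φ
    have hx2 : Tendsto (fun t : Finset I => ‖∑ i ∈ s, Φ (lp.single p i (x i)) -
        ∑ i ∈ t, Φ (lp.single p i (x i))‖) atTop
        (𝓝 ‖∑ i ∈ s, Φ (lp.single p i (x i)) - Φ x‖) := (tendsto_const_nhds.sub hx).norm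
    have hx3 : ((∑ i ∈ s,
      (Φ.comp (lp.singleContinuousLinearMap ℝ E p i)).comp (lp.evalCLM ℝ E p i)) - Φ) x =
        ∑ i ∈ s, Φ (lp.single p i (x i)) - Φ x := by
      rw [ContinuousLinearMap.sub_apply, ContinuousLinearMap.sum_apply]; rfl
    rw [hx3]
    refine le_of_tendsto hx2 ((eventually_ge_atTop s).mono fun t hst => ?_)
    have hst' : s ⊆ t := hst
    rw [← Finset.sum_sdiff hst', norm_sub_rev, add_sub_cancel_right]
    calc ‖∑ i ∈ t \ s, Φ (lp.single p i (x i))‖ ≤ ∑ i ∈ t \ s, ‖Φ (lp.single p i (x i))‖ :=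
          norm_sum_le _ _
      _ ≤ ∑ i ∈ t \ s, a i * ‖x i‖ := Finset.sum_le_sum fun i _ =>
          (Φ.comp (lp.singleContinuousLinearMap ℝ E p i)).le_opNorm (x i)
      _ ≤ (∑ i ∈ t \ s, a i ^ r) ^ (1 / r) * ‖x‖ := holder_fin hpr a ha0 _ x
      _ ≤ _ := by
          refine mul_le_mul_of_nonneg_right (Real.rpow_le_rpow
            (Finset.sum_nonneg fun i _ => Real.rpow_nonneg (ha0 i) _) ?_ (by positivity))
            (norm_nonneg _)
          have := hT t
          rw [← Finset.sum_sdiff hst'] at this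
          linarith
  rw [tendsto_iff_norm_sub_tendsto_zero]
  refine squeeze_zero (fun _ => norm_nonneg _) key ?_
  have h1 : Tendsto (fun s : Finset I => T - ∑ i ∈ s, a i ^ r) atTop (𝓝 0) := by
    have := (tendsto_const_nhds (x := T)).sub hs.hasSum
    rwa [show T - ∑' i, a i ^ r = 0 from sub_self _] at this
  have h2 := h1.rpow_const (p := 1 / r) (Or.inr (by positivity))
  rwa [Real.zero_rpow (by positivity)] at h2

theorem lp_refl (hp1 : 1 < p.toReal)
    (hE : ∀ i, Function.Surjective (NormedSpace.inclusionInDoubleDual ℝ (E i))) :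
    Function.Surjective (NormedSpace.inclusionInDoubleDual ℝ (lp E p)) := by
  classical
  intro F
  have hpt : p ≠ ⊤ := by rintro rfl; simp at hp1; linarith
  have hp0 : 0 < p.toReal := by linarith
  have hpr : (Real.conjExponent p.toReal).HolderConjugate p.toReal :=
    (Real.HolderConjugate.conjExponent hp1).symm
  set r := Real.conjExponent p.toReal
  have hr0 : 0 < r := hpr.pos
  have hy : ∀ i, ∃ y : E i, ∀ φ : E i →L[ℝ] ℝ, φ y = F (φ.comp (lp.evalCLM ℝ E p i)) := by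
    intro i
    obtain ⟨y, hy⟩ := hE i (F.comp ((ContinuousLinearMap.compL ℝ (lp E p) (E i) ℝ).flip
      (lp.evalCLM ℝ E p i)))
    refine ⟨y, fun φ => ?_⟩
    have := congrArg (fun G => G φ) hy
    simpa using this
  choose y hy using hy
  have hmem : Memℓp y p := by
    refine memℓp_gen' (C := ‖F‖ ^ (1 / (1 - 1 / r))) fun s => ?_
    set A := ∑ i ∈ s, ‖y i‖ ^ p.toReal with hA
    have hA0 : 0 ≤ A := Finset.sum_nonneg fun i _ => by positivity
    refine bound_of_le hA0 F.opNorm_nonneg (by rw [div_lt_one hr0]; exact hpr.lt) ?_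
    have hφ : ∀ i, ∃ φ : E i →L[ℝ] ℝ, ‖φ‖ ≤ 1 ∧ φ (y i) = ‖y i‖ := fun i => by
      obtain ⟨g, h1, h2⟩ := exists_dual_vector'' ℝ (y i)
      exact ⟨g, h1, by simpa using h2⟩
    choose φ hφ1 hφ2 using hφ
    set Ψ : lp E p →L[ℝ] ℝ :=
      ∑ i ∈ s, (‖y i‖ ^ (p.toReal - 1)) • (φ i).comp (lp.evalCLM ℝ E p i) with hΨ
    have h1 : F Ψ = A := by
      rw [hΨ, map_sum, hA]
      refine Finset.sum_congr rfl fun i _ => ?_
      rw [map_smul, ← hy, hφ2, smul_eq_mul]
      rcases (norm_nonneg (y i)).eq_or_lt with h0 | h0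
      · rw [← h0, Real.zero_rpow hp0.ne', mul_zero]
      · rw [Real.rpow_sub_one h0.ne']; field_simp
    have h2 : ‖Ψ‖ ≤ A ^ (1 / r) := by
      refine ContinuousLinearMap.opNorm_le_bound _ (by positivity) fun x => ?_
      have h3 : Ψ x = ∑ i ∈ s, ‖y i‖ ^ (p.toReal - 1) * φ i (x i) := by
        rw [hΨ, ContinuousLinearMap.sum_apply]; rfl
      rw [h3]
      calc ‖∑ i ∈ s, ‖y i‖ ^ (p.toReal - 1) * φ i (x i)‖
          ≤ ∑ i ∈ s, ‖‖y i‖ ^ (p.toReal - 1) * φ i (x i)‖ := norm_sum_le _ _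
        _ ≤ ∑ i ∈ s, ‖y i‖ ^ (p.toReal - 1) * ‖x i‖ := by
          refine Finset.sum_le_sum fun i _ => ?_
          rw [norm_mul, Real.norm_of_nonneg (by positivity)]
          refine mul_le_mul_of_nonneg_left ?_ (by positivity)
          exact ((φ i).le_opNorm _).trans (mul_le_of_le_one_left (norm_nonneg _) (hφ1 i))
        _ ≤ (∑ i ∈ s, (‖y i‖ ^ (p.toReal - 1)) ^ r) ^ (1 / r) * ‖x‖ :=
          holder_fin hpr _ (fun i => by positivity) s x
        _ = _ := by
          congr 2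
          refine Finset.sum_congr rfl fun i _ => ?_
          rw [← Real.rpow_mul (norm_nonneg _), hpr.symm.sub_one_mul_conj]
    calc A = F Ψ := h1.symm
      _ ≤ ‖F‖ * ‖Ψ‖ := (le_abs_self _).trans (F.le_opNorm Ψ)
      _ ≤ _ := mul_le_mul_of_nonneg_left h2 F.opNorm_nonneg
  refine ⟨⟨y, hmem⟩, ?_⟩
  ext Φ
  rw [NormedSpace.dual_def]
  have h1 := (F.continuous.tendsto Φ).comp (dual_tendsto hp1 Φ)
  have h2 : Tendsto (fun t : Finset I => ∑ i ∈ t, Φ (lp.single p i (y i))) atTop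
      (𝓝 (Φ ⟨y, hmem⟩)) := (lp.hasSum_single hpt (⟨y, hmem⟩ : lp E p)).mapL Φ
  refine tendsto_nhds_unique h2 (h1.congr fun s => ?_)
  simp only [Function.comp_apply, map_sum]
  refine Finset.sum_congr rfl fun i _ => ?_
  rw [← hy]; rfl

end

end Pool.Agent.H588Z.Wsc
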