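import Mathlib

/-! No weakly sequentially continuous coarse Lipschitz embedding of an infinite-dimensional Hilbert
space into an `ℓ_q`-sum (`q < 2`) of spaces with asymptotic lower `p_n`-estimates, `p_n < 2`. -/

set_option autoImplicit false
set_option linter.unusedSectionVars false
set_option linter.deprecated false
set_option linter.unusedVariables false

open Filter Topology
open scoped ENNReal

namespace Pool.Agent.H588Z.Wsc

/-- weak convergence of a sequence -/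
def WT {Z : Type} [NormedAddCommGroup Z] [NormedSpace ℝ Z] (v : ℕ → Z) (w : Z) : Prop :=
  ∀ ψ : Z →L[ℝ] ℝ, Tendsto (fun m => ψ (v m)) atTop (𝓝 (ψ w))

section
variable {Z W : Type} [NormedAddCommGroup Z] [NormedSpace ℝ Z] [NormedAddCommGroup W]
  [NormedSpace ℝ W]

lemma WT.map {v : ℕ → Z} {w : Z} (h : WT v w) (T : Z →L[ℝ] W) : WT (fun m => T (v m)) (T w) :=
  fun ψ => h (ψ.comp T)

lemma WT.sub {v v' : ℕ → Z} {w w' : Z} (h : WT v w) (h' : WT v' w') :
    WT (fun m => v m - v' m) (w - w') := fun ψ => by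
  simp only [map_sub]; exact (h ψ).sub (h' ψ)

lemma WT.const (w : Z) : WT (fun _ => w) w := fun _ => tendsto_const_nhds

lemma WT.minor {v : ℕ → Z} {w : Z} (h : WT v w) :
    ∃ t : ℕ → ℝ, (∀ m, 0 ≤ t m ∧ t m ≤ ‖v m‖) ∧ Tendsto t atTop (𝓝 ‖w‖) := by
  obtain ⟨g, h1, h2⟩ := exists_dual_vector'' ℝ w
  have h2' : g w = ‖w‖ := by simpa using h2
  refine ⟨fun m => |g (v m)|, fun m => ⟨abs_nonneg _,
    (g.le_opNorm _).trans (mul_le_of_le_one_left (norm_nonneg _) h1)⟩, ?_⟩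
  have := (h g).abs
  rwa [h2', abs_norm] at this

lemma WT.lsc {v : ℕ → Z} {w : Z} (h : WT v w) {a : ℝ} (ha : a < ‖w‖) :
    ∀ᶠ m in atTop, a < ‖v m‖ := by
  obtain ⟨t, h1, h2⟩ := h.minor
  exact (h2.eventually (lt_mem_nhds ha)).mono fun m hm => hm.trans_le (h1 m).2

end

lemma small {s B c η : ℝ} (hs0 : 0 ≤ s) (hs : s < 2) (hB : 0 ≤ B) (hc : 0 ≤ c) (hη : 0 < η) :
    ∀ᶠ k : ℕ in atTop, (B * √(k : ℝ) + c) ^ s ≤ η * k := by
  have h1 : Tendsto (fun k : ℕ => (B + c) ^ s * (k : ℝ) ^ (-(1 - s / 2))) atTop (𝓝 0) := by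
    have := ((tendsto_rpow_neg_atTop (y := 1 - s / 2) (by linarith)).comp
      tendsto_natCast_atTop_atTop).const_mul ((B + c) ^ s)
    simpa using this
  filter_upwards [h1.eventually (gt_mem_nhds hη), eventually_ge_atTop 1] with k hk hk1
  have hk1' : (1 : ℝ) ≤ k := by exact_mod_cast hk1
  have hk0 : (0 : ℝ) < k := by linarith
  have hsq : 1 ≤ √(k : ℝ) := Real.one_le_sqrt.2 hk1'
  calc (B * √(k : ℝ) + c) ^ s ≤ ((B + c) * √(k : ℝ)) ^ s :=
        Real.rpow_le_rpow (by positivity) (by nlinarith) hs0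
    _ = (B + c) ^ s * (k : ℝ) ^ (-(1 - s / 2)) * k := by
        rw [Real.mul_rpow (by positivity) (by positivity), Real.sqrt_eq_rpow,
          ← Real.rpow_mul hk0.le, mul_assoc, ← Real.rpow_add_one hk0.ne']
        congr 2; ring
    _ ≤ η * k := mul_le_mul_of_nonneg_right hk.le hk0.le

section
variable {X : Type} [NormedAddCommGroup X] [InnerProductSpace ℝ X] {e : ℕ → X}

lemma move_wt (he : WT e 0) (x : X) (R : ℝ) : WT (fun m => x + R • e m) x := fun ψ => by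
  have := ((he ψ).const_mul R).const_add (ψ x)
  simpa using this

lemma move_norm (he : WT e 0) (he1 : ∀ m, ‖e m‖ = 1) (d : X) {R : ℝ} (hR : 0 < R) :
    ∀ᶠ m in atTop, ‖d + R • e m‖ ^ 2 ≤ ‖d‖ ^ 2 + 2 * R ^ 2 := by
  have h := he (innerSL ℝ d)
  simp only [innerSL_apply_apply, inner_zero_right] at h
  filter_upwards [h.eventually (gt_mem_nhds (half_pos hR))] with m hm
  rw [norm_add_sq_real, inner_smul_right, norm_smul, he1, Real.norm_of_nonneg hR.le]
  nlinarith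

variable {E : ℕ → Type} [∀ i, NormedAddCommGroup (E i)] [∀ i, NormedSpace ℝ (E i)]
  {q : ℝ≥0∞} [Fact (1 ≤ q)] {P : ℕ → ℝ}

/-- asymptotic lower estimate -/
def AUC (Z : Type) [NormedAddCommGroup Z] [NormedSpace ℝ Z] (s : ℝ) : Prop :=
  ∀ (w : Z) (v : ℕ → Z), WT v w → ∀ ε > 0, ∀ᶠ m in atTop,
    ‖w‖ ^ s + (1 / 4) * ‖v m - w‖ ^ s - ε ≤ ‖v m‖ ^ s

lemma sqrt_bound {x R : ℝ} {j : ℕ} (hx : 0 ≤ x) (hR : 0 ≤ R) (h : x ^ 2 ≤ 2 * j * R ^ 2) :
    x ≤ 2 * R * √(j : ℝ) := by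
  have hj : (0 : ℝ) ≤ j := Nat.cast_nonneg j
  refine le_of_sq_le_sq' ?_ (by positivity)
  · have : (2 * R * √(j : ℝ)) ^ 2 = 4 * j * R ^ 2 := by
      rw [mul_pow, Real.sq_sqrt hj]; ring
    rw [this]; nlinarith [sq_nonneg R]
where le_of_sq_le_sq' {a b : ℝ} (h : a ^ 2 ≤ b ^ 2) (hb : 0 ≤ b) : a ≤ b :=
  (abs_le_of_sq_le_sq' h hb).2

lemma escape (he : WT e 0) (he1 : ∀ m, ‖e m‖ = 1) (hP0 : ∀ n, 0 ≤ P n) (hP2 : ∀ n, P n < 2)
    (hA : ∀ n, AUC (E n) (P n)) (g : X → lp E q) {b c : ℝ} (hb : 0 ≤ b) (hc : 0 ≤ c)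
    (hup : ∀ x x', ‖g x - g x'‖ ≤ b * ‖x - x'‖ + c)
    (hw : ∀ u x, WT u x → WT (fun m => g (u m)) (g x)) {R : ℝ} (hR : 0 < R) (S : Set X) {x0 : X}
    (hx0 : x0 ∈ S) (hS : ∀ x ∈ S, ∀ᶠ m in atTop, x + R • e m ∈ S) (N : ℕ) {δ : ℝ} (hδ : 0 < δ)
    (hδ1 : δ ≤ 1) :
    ∃ x ∈ S, ∃ᶠ m in atTop, ∀ n < N, ‖(g (x + R • e m) - g x) n‖ < δ := by
  by_contra hcon
  have hcon' : ∀ x ∈ S, ∀ᶠ m in atTop, ∃ n < N, δ ≤ ‖(g (x + R • e m) - g x) n‖ := by
    intro x hx
    by_contra h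
    apply hcon
    refine ⟨x, hx, ?_⟩
    rw [not_eventually] at h
    refine h.mono fun m hm n hn => ?_
    by_contra h'
    exact hm ⟨n, hn, not_lt.1 h'⟩
  have hq0 : q ≠ 0 := (zero_lt_one.trans_le Fact.out).ne'
  have ind : ∀ j : ℕ, ∃ x ∈ S, ‖x - x0‖ ^ 2 ≤ 2 * j * R ^ 2 ∧
      j * (δ ^ 2 / 8) ≤ ∑ n ∈ Finset.range N, ‖(g x - g x0) n‖ ^ P n := by
    intro j
    induction j with
    | zero => exact ⟨x0, hx0, by simp, by
        simp only [Nat.cast_zero, zero_mul]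
        exact Finset.sum_nonneg fun n _ => by positivity⟩
    | succ j ih =>
      obtain ⟨x, hx, h1, h2⟩ := ih
      have hv : WT (fun m => g (x + R • e m) - g x0) (g x - g x0) :=
        (hw _ _ (move_wt he x R)).sub (WT.const _)
      have hε : 0 < δ ^ 2 / (8 * (N + 1)) := by positivity
      have hall : ∀ᶠ m in atTop, ∀ n ∈ Finset.range N,
          ‖(g x - g x0) n‖ ^ P n + (1 / 4) * ‖(g (x + R • e m) - g x) n‖ ^ P n
            - δ ^ 2 / (8 * (N + 1)) ≤ ‖(g (x + R • e m) - g x0) n‖ ^ P n := by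
        rw [eventually_all_finset]
        intro n _
        refine (hA n _ _ (hv.map (lp.evalCLM ℝ E q n)) _ hε).mono fun m hm => ?_
        have h3 : lp.evalCLM ℝ E q n (g (x + R • e m) - g x0) - lp.evalCLM ℝ E q n (g x - g x0)
            = (g (x + R • e m) - g x) n := by
          rw [← map_sub, sub_sub_sub_cancel_right]; rfl
        rw [h3] at hm
        exact hm
      obtain ⟨m, ⟨hm1, hm2⟩, hm3, n0, hn0, hm4⟩ := (((hS x hx).and
        (move_norm he he1 (x - x0) hR)).and (hall.and (hcon' x hx))).exists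
      refine ⟨x + R • e m, hm1, ?_, ?_⟩
      · rw [show x + R • e m - x0 = x - x0 + R • e m by abel]
        push_cast; nlinarith
      · have h5 := Finset.sum_le_sum hm3
        rw [Finset.sum_sub_distrib, Finset.sum_add_distrib, ← Finset.mul_sum, Finset.sum_const,
          Finset.card_range, nsmul_eq_mul] at h5
        have h6 : δ ^ 2 ≤ ∑ n ∈ Finset.range N, ‖(g (x + R • e m) - g x) n‖ ^ P n := by
          refine le_trans ?_ (Finset.single_le_sum (f := fun n =>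
            ‖(g (x + R • e m) - g x) n‖ ^ P n) (fun n _ => by positivity)
            (Finset.mem_range.2 hn0))
          calc δ ^ 2 = δ ^ (2 : ℝ) := by norm_cast
            _ ≤ δ ^ P n0 := Real.rpow_le_rpow_of_exponent_ge hδ hδ1 (hP2 n0).le
            _ ≤ _ := Real.rpow_le_rpow hδ.le hm4 (hP0 n0)
        have h7 : (N : ℝ) * (δ ^ 2 / (8 * (N + 1))) ≤ δ ^ 2 / 8 := by
          rw [← mul_div_assoc, div_le_div_iff₀ (by positivity) (by positivity)]
          nlinarith [sq_nonneg δ]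
        rw [Nat.cast_succ]; linarith
  have hη : 0 < δ ^ 2 / (16 * (N + 1)) := by positivity
  have hev : ∀ᶠ j : ℕ in atTop, ∀ n ∈ Finset.range N,
      (b * (2 * R) * √(j : ℝ) + c) ^ P n ≤ δ ^ 2 / (16 * (N + 1)) * j := by
    rw [eventually_all_finset]
    exact fun n _ => small (hP0 n) (hP2 n) (by positivity) hc hη
  obtain ⟨j, hj1, hj2⟩ := (hev.and (eventually_ge_atTop 1)).exists
  obtain ⟨x, -, h1, h2⟩ := ind j
  have h3 : ‖x - x0‖ ≤ 2 * R * √(j : ℝ) := sqrt_bound (norm_nonneg _) hR.le h1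
  have h4 : ∑ n ∈ Finset.range N, ‖(g x - g x0) n‖ ^ P n ≤
      ∑ n ∈ Finset.range N, δ ^ 2 / (16 * (N + 1)) * j := by
    refine Finset.sum_le_sum fun n hn => le_trans ?_ (hj1 n hn)
    refine Real.rpow_le_rpow (norm_nonneg _) ?_ (hP0 n)
    refine (lp.norm_apply_le_norm hq0 _ n).trans ((hup x x0).trans ?_)
    nlinarith
  rw [Finset.sum_const, Finset.card_range, nsmul_eq_mul] at h4
  have hj : (1 : ℝ) ≤ j := by exact_mod_cast hj2
  have h7 : (N : ℝ) * (δ ^ 2 / (16 * (N + 1))) ≤ δ ^ 2 / 16 := by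
    rw [← mul_div_assoc, div_le_div_iff₀ (by positivity) (by positivity)]
    nlinarith [sq_nonneg δ]
  have h8 : (N : ℝ) * (δ ^ 2 / (16 * (N + 1)) * j) ≤ δ ^ 2 / 16 * j := by
    rw [← mul_assoc]; exact mul_le_mul_of_nonneg_right h7 (by linarith)
  have : 0 < δ ^ 2 := by positivity
  nlinarith

lemma head_lsc (hq0 : 0 < q.toReal) {v : ℕ → lp E q} {w : lp E q} (h : WT v w) (N : ℕ) {A : ℝ}
    (hA : A < ∑ n ∈ Finset.range N, ‖w n‖ ^ q.toReal) :
    ∀ᶠ m in atTop, A < ∑ n ∈ Finset.range N, ‖v m n‖ ^ q.toReal := by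
  have h1 := fun n => (h.map (lp.evalCLM ℝ E q n)).minor
  choose t ht1 ht2 using h1
  have h2 : Tendsto (fun m => ∑ n ∈ Finset.range N, t n m ^ q.toReal) atTop
      (𝓝 (∑ n ∈ Finset.range N, ‖w n‖ ^ q.toReal)) :=
    tendsto_finset_sum _ fun n _ => (ht2 n).rpow_const (Or.inr hq0.le)
  refine (h2.eventually (lt_mem_nhds hA)).mono fun m hm => hm.trans_le ?_
  exact Finset.sum_le_sum fun n _ => Real.rpow_le_rpow (ht1 n m).1 (ht1 n m).2 hq0.le

theorem no_wsc (he : WT e 0) (he1 : ∀ m, ‖e m‖ = 1) (hP0 : ∀ n, 0 ≤ P n) (hP2 : ∀ n, P n < 2)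
    (hA : ∀ n, AUC (E n) (P n)) (hq0 : 0 < q.toReal) (hq2 : q.toReal < 2)
    (g : X → lp E q) {a b c : ℝ} (ha : 0 < a) (hb : 0 ≤ b) (hc : 0 ≤ c)
    (hlo : ∀ x x', a * ‖x - x'‖ - c ≤ ‖g x - g x'‖)
    (hup : ∀ x x', ‖g x - g x'‖ ≤ b * ‖x - x'‖ + c)
    (hw : ∀ u x, WT u x → WT (fun m => g (u m)) (g x)) : False := by
  classical
  set R : ℝ := (c + 4) / a with hRdef
  have hR : 0 < R := by positivity
  have haR : a * R - c = 4 := by rw [hRdef]; field_simp; ring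
  have hq0' : (0 : ℝ≥0∞) < q := zero_lt_one.trans_le Fact.out
  have ind : ∀ k : ℕ, ∃ x y : X, ‖x - y‖ ^ 2 ≤ 2 * k * R ^ 2 ∧
      (k : ℝ) - 1 < ‖g x - g y‖ ^ q.toReal := by
    intro k
    induction k with
    | zero => exact ⟨0, 0, by simp, by
        have : 0 ≤ ‖g 0 - g 0‖ ^ q.toReal := by positivity
        push_cast; linarith⟩
    | succ k ih =>
      obtain ⟨x, y, h1, h2⟩ := ih
      obtain ⟨N, hN⟩ : ∃ N, (k : ℝ) - 1 < ∑ n ∈ Finset.range N, ‖(g x - g y) n‖ ^ q.toReal :=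
        ((lp.hasSum_norm hq0 (g x - g y)).tendsto_sum_nat.eventually (lt_mem_nhds h2)).exists
      set d := x - y with hd
      let S : Set X :=
        {z | (k : ℝ) - 1 < ∑ n ∈ Finset.range N, ‖(g z - g (z - d)) n‖ ^ q.toReal}
      have hxS : x ∈ S := by
        show (k : ℝ) - 1 < ∑ n ∈ Finset.range N, ‖(g x - g (x - d)) n‖ ^ q.toReal
        rwa [hd, sub_sub_cancel]
      have hS : ∀ z ∈ S, ∀ᶠ m in atTop, z + R • e m ∈ S := by
        intro z hz
        have hv := (hw _ _ (move_wt he z R)).sub (hw _ _ (move_wt he (z - d) R))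
        refine (head_lsc hq0 hv N hz).mono fun m hm => ?_
        show (k : ℝ) - 1 < ∑ n ∈ Finset.range N,
          ‖(g (z + R • e m) - g (z + R • e m - d)) n‖ ^ q.toReal
        rwa [show z + R • e m - d = z - d + R • e m by abel]
      have hδ : (0 : ℝ) < 1 / (N + 1) := by positivity
      obtain ⟨z, hz, hfr⟩ := escape he he1 hP0 hP2 hA g hb hc hup hw hR S hxS hS N hδ (by
        rw [div_le_one (by positivity)]; linarith [(Nat.cast_nonneg N : (0 : ℝ) ≤ N)])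
      have hv : WT (fun m => g (z + R • e m) - g (z - d)) (g z - g (z - d)) :=
        (hw _ _ (move_wt he z R)).sub (WT.const _)
      let Q : lp E q →L[ℝ] lp E q := ContinuousLinearMap.id ℝ _ - ∑ n ∈ Finset.range N,
        (lp.singleContinuousLinearMap ℝ E q n).comp (lp.evalCLM ℝ E q n)
      have hQ : ∀ v : lp E q, Q v = v - ∑ n ∈ Finset.range N, lp.single q n (v n) := by
        intro v
        simp only [Q]
        rw [ContinuousLinearMap.sub_apply, ContinuousLinearMap.sum_apply]; rfl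
      have e1 := head_lsc hq0 hv N hz
      have e2 := (hv.map Q).lsc (a := ‖Q (g z - g (z - d))‖ - 1) (by linarith)
      have e3 := move_norm he he1 d hR
      obtain ⟨m, hm0, ⟨hm1, hm2⟩, hm3⟩ := (hfr.and_eventually ((e1.and e2).and e3)).exists
      refine ⟨z + R • e m, z - d, ?_, ?_⟩
      · rw [show z + R • e m - (z - d) = d + R • e m by abel]
        push_cast; nlinarith
      · set u := g (z + R • e m) - g z with hu
        set v := g (z + R • e m) - g (z - d) with hvdef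
        set w := g z - g (z - d) with hwdef
        have hu4 : 4 ≤ ‖u‖ := by
          have := hlo (z + R • e m) z
          rwa [add_sub_cancel_left, norm_smul, he1, Real.norm_of_nonneg hR.le, mul_one, haR] at this
        have hhead : ‖∑ n ∈ Finset.range N, lp.single q n (u n)‖ ≤ 1 := by
          refine (norm_sum_le _ _).trans ?_
          calc ∑ n ∈ Finset.range N, ‖lp.single (E := E) q n (u n)‖
              ≤ ∑ n ∈ Finset.range N, 1 / ((N : ℝ) + 1) := by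
                refine Finset.sum_le_sum fun n hn => ?_
                rw [lp.norm_single hq0']
                exact (hm0 n (Finset.mem_range.1 hn)).le
            _ ≤ 1 := by
                rw [Finset.sum_const, Finset.card_range, nsmul_eq_mul, mul_one_div,
                  div_le_one (by positivity)]
                linarith
        have hQu : 3 ≤ ‖Q u‖ := by
          rw [hQ]
          have := norm_sub_norm_le u (∑ n ∈ Finset.range N, lp.single q n (u n))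
          linarith
        have huv : u = v - w := by rw [hu, hvdef, hwdef]; abel
        have hQv : 1 ≤ ‖Q v‖ := by
          have : ‖Q u‖ ≤ ‖Q v‖ + ‖Q w‖ := by rw [huv, map_sub]; exact norm_sub_le _ _
          linarith
        have h5 := lp.norm_sub_norm_compl_sub_single hq0 v (Finset.range N)
        rw [← hQ] at h5
        have h6 : 1 ≤ ‖Q v‖ ^ q.toReal := Real.one_le_rpow hQv hq0.le
        rw [Nat.cast_succ]; linarith
  obtain ⟨k, hk1, hk2⟩ := ((small (B := b * (2 * R)) (c := c) (η := 1 / 2) hq0.le hq2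
    (by positivity) hc (by norm_num)).and (eventually_ge_atTop 2)).exists
  obtain ⟨x, y, h1, h2⟩ := ind k
  have h3 : ‖x - y‖ ≤ 2 * R * √(k : ℝ) := sqrt_bound (norm_nonneg _) hR.le h1
  have h4 : ‖g x - g y‖ ^ q.toReal ≤ (b * (2 * R) * √(k : ℝ) + c) ^ q.toReal := by
    refine Real.rpow_le_rpow (norm_nonneg _) ((hup x y).trans ?_) hq0.le
    nlinarith
  have hk : (2 : ℝ) ≤ k := by exact_mod_cast hk2
  linarith

end

/-- `ℓ_p` has the asymptotic lower estimate -/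
theorem lp_auc (p : ℝ≥0∞) [Fact (1 ≤ p)] (hp0 : 0 < p.toReal) (hp2 : p.toReal ≤ 2) :
    AUC (lp (fun _ : ℕ => ℝ) p) p.toReal := by
  classical
  intro w v hv ε hε
  set s := p.toReal
  have hw := lp.hasSum_norm hp0 w
  obtain ⟨N, hN⟩ : ∃ N, ‖w‖ ^ s - ε / 4 < ∑ i ∈ Finset.range N, ‖w i‖ ^ s :=
    (hw.tendsto_sum_nat.eventually (lt_mem_nhds (by linarith))).exists
  have hc : ∀ i, Tendsto (fun m => v m i) atTop (𝓝 (w i)) := fun i =>
    hv (lp.evalCLM ℝ (fun _ : ℕ => ℝ) p i)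
  have h1 : Tendsto (fun m => ∑ i ∈ Finset.range N, ‖v m i‖ ^ s) atTop
      (𝓝 (∑ i ∈ Finset.range N, ‖w i‖ ^ s)) :=
    tendsto_finset_sum _ fun i _ => (hc i).norm.rpow_const (Or.inr hp0.le)
  have h2 : Tendsto (fun m => ∑ i ∈ Finset.range N, ‖v m i - w i‖ ^ s) atTop (𝓝 0) := by
    have : Tendsto (fun m => ∑ i ∈ Finset.range N, ‖v m i - w i‖ ^ s) atTop
        (𝓝 (∑ i ∈ Finset.range N, ‖w i - w i‖ ^ s)) :=
      tendsto_finset_sum _ fun i _ => ((hc i).sub_const _).norm.rpow_const (Or.inr hp0.le)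
    simpa [Real.zero_rpow hp0.ne'] using this
  filter_upwards [h1.eventually (lt_mem_nhds hN), h2.eventually (gt_mem_nhds hε)] with m hm1 hm2
  have a1 := (hasSum_nat_add_iff' N).2 (lp.hasSum_norm hp0 (v m))
  have a2 := (hasSum_nat_add_iff' N).2 (lp.hasSum_norm hp0 (v m - w))
  have a3 := (hasSum_nat_add_iff' N).2 hw
  have key : ∀ i, ‖(v m - w) (i + N)‖ ^ s ≤ 4 * (‖v m (i + N)‖ ^ s + ‖w (i + N)‖ ^ s) := by
    intro i
    rw [lp.coeFn_sub, Pi.sub_apply]
    set x := v m (i + N)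
    set y := w (i + N)
    have hm : ‖x - y‖ ≤ 2 * max ‖x‖ ‖y‖ := by
      have := norm_sub_le x y
      have := le_max_left ‖x‖ ‖y‖
      have := le_max_right ‖x‖ ‖y‖
      linarith
    have h0 : 0 ≤ max ‖x‖ ‖y‖ := le_max_of_le_left (norm_nonneg _)
    have h4 : (2 : ℝ) ^ s ≤ 4 := by
      calc (2 : ℝ) ^ s ≤ 2 ^ (2 : ℝ) := Real.rpow_le_rpow_of_exponent_le (by norm_num) hp2
        _ = 4 := by norm_num
    have h5 : (max ‖x‖ ‖y‖) ^ s ≤ ‖x‖ ^ s + ‖y‖ ^ s := by
      have hx : 0 ≤ ‖x‖ ^ s := by positivity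
      have hy : 0 ≤ ‖y‖ ^ s := by positivity
      rcases le_total ‖x‖ ‖y‖ with h | h
      · rw [max_eq_right h]; linarith
      · rw [max_eq_left h]; linarith
    calc ‖x - y‖ ^ s ≤ (2 * max ‖x‖ ‖y‖) ^ s := Real.rpow_le_rpow (norm_nonneg _) hm hp0.le
      _ = 2 ^ s * (max ‖x‖ ‖y‖) ^ s := Real.mul_rpow (by norm_num) h0
      _ ≤ 4 * (‖x‖ ^ s + ‖y‖ ^ s) := mul_le_mul h4 h5 (by positivity) (by norm_num)
  have a4 := hasSum_le key a2 ((a1.add a3).mul_left 4)
  have a5 : ∑ i ∈ Finset.range N, ‖(v m - w) i‖ ^ s = ∑ i ∈ Finset.range N, ‖v m i - w i‖ ^ s := by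
    simp only [lp.coeFn_sub, Pi.sub_apply]
  rw [a5] at a4
  linarith

end Pool.Agent.H588Z.Wsc
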